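import Pool.Agent.TH652.CX.Law
import Pool.Agent.TH652.ART.Main
import Pool.Agent.TH652.PR.Base

/-! Derivatives at a real point of the `L`-functions of the characters of an abelian group. -/

set_option autoImplicit false

namespace Pool.Agent.TH652.CX

open Filter Topology Set Polynomial
open Pool.Agent.W189.ML Pool.Agent.W189.LC
open Pool.Agent.W187.UR hiding excess
open Pool.Agent.TH652.COL Pool.Agent.TH652.ART

theorem inv_to_zero : Tendsto (fun T : ℝ => (1 : ℝ) / T) atTop (𝓝 0) :=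
  tendsto_const_nhds.div_atTop tendsto_id

/-- from the law to the exponentials -/
theorem exp_law {f : ℝ → ℂ} {m : ℤ} {r L : ℂ} (hm : 1 ≤ m)
    (h : (fun T : ℝ => f T - (m * (Real.log T - L) - r)) =O[atTop] (fun T : ℝ => 1 / T)) :
    (fun T : ℝ => T * Complex.exp (-L) * Complex.exp (-(f T)) -
      (if m = 1 then Complex.exp r else 0)) =O[atTop] (fun T : ℝ => 1 / T) := by
  set d : ℝ → ℂ := fun T => f T - (m * (Real.log T - L) - r) with hd
  have hd0 : Tendsto d atTop (𝓝 0) := h.trans_tendsto inv_to_zero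
  have hd1 : ∀ᶠ T in atTop, ‖d T‖ ≤ 1 := by
    have h1 := hd0.norm
    rw [norm_zero] at h1
    exact (h1.eventually_lt_const one_pos).mono fun T hT => hT.le
  have key : ∀ᶠ T : ℝ in atTop, T * Complex.exp (-L) * Complex.exp (-(f T)) =
      Complex.exp ((1 - m) * (Real.log T - L)) * Complex.exp r * Complex.exp (-(d T)) := by
    filter_upwards [eventually_gt_atTop 0] with T hT
    have h1 : (T : ℂ) = Complex.exp (Real.log T : ℝ) := by
      rw [← Complex.ofReal_exp, Real.exp_log hT]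
    nth_rewrite 1 [h1]
    rw [← Complex.exp_add, ← Complex.exp_add, ← Complex.exp_add, ← Complex.exp_add]
    congr 1
    rw [hd]
    ring
  by_cases h1 : m = 1
  · simp only [if_pos h1]
    have h2 : (fun T : ℝ => Complex.exp r * (Complex.exp (-(d T)) - 1)) =O[atTop]
        (fun T : ℝ => 1 / T) := by
      have h3 : (fun T : ℝ => Complex.exp (-(d T)) - 1) =O[atTop] d := by
        refine Asymptotics.IsBigO.of_bound 2 ?_
        filter_upwards [hd1] with T hT
        have := Complex.norm_exp_sub_one_le (x := -(d T)) (by rwa [norm_neg])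
        rwa [norm_neg] at this
      exact (h3.trans h).const_mul_left _
    refine h2.congr' ?_ EventuallyEq.rfl
    filter_upwards [key] with T hT
    rw [hT, h1]
    push_cast
    rw [sub_self, zero_mul, Complex.exp_zero]
    ring
  · simp only [if_neg h1, sub_zero]
    have hm2 : 2 ≤ m := by omega
    refine Asymptotics.IsBigO.of_bound
      (Real.exp ((m - 1) * |L.re|) * ‖Complex.exp r‖ * Real.exp 1) ?_
    filter_upwards [key, hd1, eventually_ge_atTop 1] with T hT hT1 hT2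
    have hT0 : 0 < T := by linarith
    have hlog : 0 ≤ Real.log T := Real.log_nonneg hT2
    rw [hT, norm_mul, norm_mul, Complex.norm_exp, Complex.norm_exp (-(d T)),
      Real.norm_eq_abs, abs_of_pos (by positivity : 0 < 1 / T)]
    have e1 : ((1 - (m : ℂ)) * (Real.log T - L)).re = (1 - m) * (Real.log T - L.re) := by
      have : ((1 - (m : ℂ)) * (Real.log T - L)).re =
          (1 - (m : ℂ)).re * ((Real.log T : ℂ) - L).re - (1 - (m : ℂ)).im *
            ((Real.log T : ℂ) - L).im := Complex.mul_re _ _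
      rw [this]
      simp
    have e2 : (1 - (m : ℝ)) * (Real.log T - L.re) ≤ (m - 1) * |L.re| + -(Real.log T) := by
      have hm3 : (2 : ℝ) ≤ m := by exact_mod_cast hm2
      have h5 := le_abs_self L.re
      have h6 := mul_nonneg (by linarith : (0 : ℝ) ≤ m - 2) hlog
      nlinarith
    have e3 : Real.exp ((1 - (m : ℝ)) * (Real.log T - L.re)) ≤
        Real.exp ((m - 1) * |L.re|) * (1 / T) := by
      refine (Real.exp_le_exp.2 e2).trans (le_of_eq ?_)
      rw [Real.exp_add, Real.exp_neg, Real.exp_log hT0, one_div]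
    have e4 : Real.exp (-(d T)).re ≤ Real.exp 1 := by
      apply Real.exp_le_exp.2
      have h7 := Complex.abs_re_le_norm (-(d T))
      rw [norm_neg] at h7
      linarith [le_abs_self (-(d T)).re]
    rw [e1]
    calc Real.exp ((1 - (m : ℝ)) * (Real.log T - L.re)) * ‖Complex.exp r‖ * Real.exp (-(d T)).re ≤
        (Real.exp ((m - 1) * |L.re|) * (1 / T)) * ‖Complex.exp r‖ * Real.exp 1 := by
          gcongr
      _ = _ := by ring

/-- the derivative and the leading coefficient -/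
theorem deriv_trailing {F : ℂ → ℂ} {m : ℤ} (ha : AnalyticAt ℂ F 0) (h0 : F 0 = 0)
    (hm : meromorphicOrderAt F 0 = m) :
    1 ≤ m ∧ deriv F 0 = if m = 1 then meromorphicTrailingCoeffAt F 0 else 0 := by
  rw [ha.meromorphicOrderAt_eq] at hm
  have hne : analyticOrderAt F 0 ≠ 0 := ha.analyticOrderAt_ne_zero.2 h0
  have htop : analyticOrderAt F 0 ≠ ⊤ := by
    intro h
    rw [h] at hm
    exact absurd hm (by simp)
  obtain ⟨n, hn⟩ := ENat.ne_top_iff_exists.1 htop
  rw [← hn] at hm hne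
  have hmn : (n : ℤ) = m := by
    have h1 : ((n : ℤ) : WithTop ℤ) = (m : WithTop ℤ) := hm
    exact_mod_cast h1
  have hn0 : n ≠ 0 := by
    rintro rfl
    exact hne rfl
  obtain ⟨g, hg, hg0, hgF⟩ := ha.analyticOrderAt_eq_natCast.1 hn.symm
  have hgF' : F =ᶠ[𝓝[≠] (0 : ℂ)] fun z => (z - 0) ^ ((n : ℕ) : ℤ) • g z := by
    refine (hgF.filter_mono nhdsWithin_le_nhds).mono fun z hz => ?_
    rw [hz]
    beta_reduce
    rw [zpow_natCast]
  refine ⟨by omega, ?_⟩
  have hd : deriv F 0 = deriv (fun z => z ^ n * g z) 0 := by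
    refine Filter.EventuallyEq.deriv_eq ?_
    filter_upwards [hgF] with z hz
    rw [hz, sub_zero, smul_eq_mul]
  have hd2 : HasDerivAt (fun z : ℂ => z ^ n * g z) (n * 0 ^ (n - 1) * g 0 + 0 ^ n * deriv g 0) 0 :=
    (hasDerivAt_pow n (0 : ℂ)).mul hg.differentiableAt.hasDerivAt
  rw [hd, hd2.deriv, hg.meromorphicTrailingCoeffAt_of_ne_zero_of_eq_nhdsNE hg0 hgF', ← hmn]
  by_cases h1 : n = 1
  · subst h1
    simp
  · have h2 : ¬ ((n : ℤ) = 1) := by omega
    rw [if_neg h2, zero_pow (by omega), zero_pow hn0]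
    ring

variable {P : Type} {q : P → ℝ} {B : P → ℝ[X]} {δ β : ℝ} {N : ℕ} {G : Type} [Group G] [Finite G]

theorem norm_chi (χ : G →* ℂˣ) (g : G) : ‖(χ g : ℂ)‖ = 1 := by
  have h1 : (χ g : ℂ) ^ Nat.card G = 1 := by
    rw [← Units.val_pow_eq_pow_val, ← map_pow, pow_card_eq_one', map_one, Units.val_one]
  have h2 : ‖(χ g : ℂ)‖ ^ Nat.card G = 1 := by rw [← norm_pow, h1, norm_one]
  exact (pow_eq_one_iff_of_nonneg (norm_nonneg _) Nat.card_pos.ne').1 h2

/-- the coefficients of a character -/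
noncomputable def chw (Fr : P → G) (χ : G →* ℂˣ) (x : P × ℕ) : ℂ := (χ (Fr x.1 ^ (x.2 + 1)) : ℂ)

open Classical in
/-- the indicator of an element -/
noncomputable def iw (Fr : P → G) (g : G) (x : P × ℕ) : ℝ :=
  if Fr x.1 ^ (x.2 + 1) = g then 1 else 0

omit [Finite G] in
theorem abs_iw_le (Fr : P → G) (g : G) (x : P × ℕ) : |iw Fr g x| ≤ 1 := by
  unfold iw
  split_ifs <;> simp

theorem chw_norm (Fr : P → G) (χ : G →* ℂˣ) (x : P × ℕ) : ‖chw Fr χ x‖ ≤ 1 :=
  (norm_chi χ _).le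

omit [Finite G] in
theorem csum_expand [Fintype G] (E : LData q B δ β N) (Fr : P → G) (χ : G →* ℂˣ) (s₀ γ : ℝ)
    {T : ℝ} (hT : 0 < T) :
    csum q B (chw Fr χ) s₀ γ T = ∑ g, (χ g : ℂ) * wsum q B (iw Fr g) s₀ γ T := by
  classical
  unfold csum wsum
  have h1 : ∀ g : G, Summable fun x => (χ g : ℂ) * ((iw Fr g x : ℂ) * lterm q B s₀ γ T x) :=
    fun g => (wsummable E (abs_iw_le Fr g) s₀ γ hT).mul_left _
  have h2 : ∀ g : G, (χ g : ℂ) * ∑' x, (iw Fr g x : ℂ) * lterm q B s₀ γ T x =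
      ∑' x, (χ g : ℂ) * ((iw Fr g x : ℂ) * lterm q B s₀ γ T x) := fun g => by rw [tsum_mul_left]
  simp only [h2]
  rw [← Summable.tsum_finsetSum fun g _ => h1 g]
  refine tsum_congr fun x => ?_
  have h3 : ∀ g : G, (χ g : ℂ) * ((iw Fr g x : ℂ) * lterm q B s₀ γ T x) =
      if Fr x.1 ^ (x.2 + 1) = g then (χ g : ℂ) * lterm q B s₀ γ T x else 0 := by
    intro g
    unfold iw
    split_ifs <;> simp
  simp only [h3]
  rw [Finset.sum_ite_eq Finset.univ]
  simp [chw]

/-- the law for the finite sums -/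
theorem chi_law [Countable P] [Fintype G] (E : LData q B δ β N)
    (hfin : ∀ R : ℝ, {v | q v ≤ R}.Finite) (Fr : P → G)
    (χ : G →* ℂˣ) {F : ℂ → ℂ} {s₀ σ₁ : ℝ} (hmer : ∀ x : ℝ, s₀ ≤ x → MeromorphicAt F (x : ℂ))
    (hF : ∀ s : ℂ, σ₁ < s.re → F s = Complex.exp (∑' x, chw Fr χ x * lt q B s x)) :
    ∃ (m : ℤ) (r : ℂ), meromorphicOrderAt F (s₀ : ℂ) = m ∧
      Complex.exp r = meromorphicTrailingCoeffAt F (s₀ : ℂ) ∧
      ∀ γ : ℝ, Real.pi / 2 < γ → ∀ A : ℝ, 0 < A → δ + β - s₀ < A →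
      (fun T : ℝ => (∑ g, (χ g : ℂ) * ∑ᶠ x ∈ cut q A T, (iw Fr g x : ℂ) * lterm q B s₀ γ T x) -
        (m * (Real.log T - Lam γ) - r)) =O[atTop] (fun T : ℝ => 1 / T) := by
  obtain ⟨m, r, h1, h2, h3⟩ := claw E (chw_norm Fr χ) hmer hF
  refine ⟨m, r, h1, h2, fun γ hγ A hA hA1 => ?_⟩
  have h4 := h3 γ hγ
  have h5 : (fun T : ℝ => ∑ g, (χ g : ℂ) * (wsum q B (iw Fr g) s₀ γ T -
      ∑ᶠ x ∈ cut q A T, (iw Fr g x : ℂ) * lterm q B s₀ γ T x)) =O[atTop] (fun T : ℝ => 1 / T) := by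
    have h6 := Asymptotics.IsBigO.sum (s := Finset.univ) fun g (_ : g ∈ Finset.univ) =>
      (wcut E (abs_iw_le Fr g) hfin s₀ γ hA hA1).const_mul_left ((χ g : ℂˣ) : ℂ)
    refine h6.congr_left fun T => ?_
    rw [Finset.sum_apply]
  refine (h4.sub h5).congr' ?_ EventuallyEq.rfl
  filter_upwards [eventually_gt_atTop 0] with T hT
  rw [csum_expand E Fr χ s₀ γ hT]
  simp only [mul_sub, Finset.sum_sub_distrib]
  ring

/-- the product of `1 / (1 - χ(Fr v) q_v^{-s})` -/
theorem chi_prod (E : LData q B δ β N) (Fr : P → G) (χ : G →* ℂˣ) {s : ℂ} (hs : δ + β < s.re) :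
    ∏' v, (tw (B v) ((χ (Fr v) : ℂ) • (1 : Module.End ℂ ℂ)) ((q v : ℂ) ^ (-s)))⁻¹ =
      Complex.exp (∑' x, chw Fr χ x * lt q B s x) := by
  have hA : ∀ v, (((χ (Fr v) : ℂ) • (1 : Module.End ℂ ℂ)) : Module.End ℂ ℂ) ^ Nat.card G = 1 := by
    intro v
    rw [_root_.smul_pow, one_pow, ← Units.val_pow_eq_pow_val, ← map_pow, pow_card_eq_one', map_one,
      Units.val_one, one_smul]
  have h1 := (tw_hasProd E (M := Nat.card G) Nat.card_pos hA hs).tprod_eq
  rw [h1]
  congr 1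
  refine tsum_congr fun x => ?_
  congr 1
  unfold tr chw
  beta_reduce
  rw [_root_.smul_pow, one_pow, map_smul, LinearMap.trace_one, ← Units.val_pow_eq_pow_val, ← map_pow]
  simp

end Pool.Agent.TH652.CX
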