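import Mathlib

/-! Finiteness of the units with given places and bounded logarithms at the conjugates of one place. -/

set_option autoImplicit false

namespace Pool.Agent.TH652.CX

open NumberField Filter Topology

variable {K H : Type} [Field K] [NumberField K] [Field H] [NumberField H] [Algebra K H]

theorem units_finite [IsGalois K H] (w₀ w₁ : InfinitePlace H)
    (h₁ : w₁.comap (algebraMap K H) ≠ w₀.comap (algebraMap K H)) (b : ℝ) :
    {ε : (𝓞 H)ˣ | (∃ c : ℝ, ∀ w : InfinitePlace H,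
      w.comap (algebraMap K H) ≠ w₀.comap (algebraMap K H) → w ((ε : 𝓞 H) : H) = c) ∧
      ∀ g : H ≃ₐ[K] H, |Real.log (w₀ (g ((ε : 𝓞 H) : H)))| ≤ b}.Finite := by
  classical
  set D : ℝ := ∑ w : InfinitePlace H, (w.mult : ℝ) with hD
  set R : ℝ := Real.exp (b + b * D) with hR
  have hfin := Embeddings.finite_of_norm_le H ℂ R
  refine Set.Finite.of_finite_image (f := fun ε : (𝓞 H)ˣ => ((ε : 𝓞 H) : H)) (hfin.subset ?_) ?_
  · rintro _ ⟨ε, ⟨⟨c, hc⟩, hb⟩, rfl⟩
    have hb0 : 0 ≤ b := (abs_nonneg _).trans (hb 1)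
    refine ⟨RingOfIntegers.isIntegral_coe _, ?_⟩
    have hlog := Units.sum_mult_mul_log ε
    have hup : ∀ w : InfinitePlace H, w.comap (algebraMap K H) = w₀.comap (algebraMap K H) →
        |Real.log (w ((ε : 𝓞 H) : H))| ≤ b := by
      intro w hw
      obtain ⟨σ, hσ⟩ := InfinitePlace.exists_smul_eq_of_comap_eq hw.symm
      rw [← hσ, InfinitePlace.smul_apply]
      exact hb σ.symm
    have hmult : ∀ w : InfinitePlace H, (0 : ℝ) ≤ w.mult := fun w => Nat.cast_nonneg _
    have hmult1 : ∀ w : InfinitePlace H, (1 : ℝ) ≤ w.mult := fun w => by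
      exact_mod_cast InfinitePlace.mult_pos
    have hcb : |Real.log c| ≤ b * D := by
      set A : Finset (InfinitePlace H) := Finset.univ.filter
        fun w => w.comap (algebraMap K H) = w₀.comap (algebraMap K H) with hA
      have h1 : ∑ w ∈ A, (w.mult : ℝ) * Real.log (w ((ε : 𝓞 H) : H)) +
          ∑ w ∈ Aᶜ, (w.mult : ℝ) * Real.log (w ((ε : 𝓞 H) : H)) = 0 := by
        rw [Finset.sum_add_sum_compl]
        exact hlog
      have h2 : ∑ w ∈ Aᶜ, (w.mult : ℝ) * Real.log (w ((ε : 𝓞 H) : H)) =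
          (∑ w ∈ Aᶜ, (w.mult : ℝ)) * Real.log c := by
        rw [Finset.sum_mul]
        refine Finset.sum_congr rfl fun w hw => ?_
        have h3 : w.comap (algebraMap K H) ≠ w₀.comap (algebraMap K H) := by
          intro h4
          exact (Finset.mem_compl.1 hw) (Finset.mem_filter.2 ⟨Finset.mem_univ _, h4⟩)
        rw [hc w h3]
      have h3 : |∑ w ∈ A, (w.mult : ℝ) * Real.log (w ((ε : 𝓞 H) : H))| ≤ b * D := by
        refine (Finset.abs_sum_le_sum_abs _ _).trans ?_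
        have h4 : ∑ w ∈ A, |(w.mult : ℝ) * Real.log (w ((ε : 𝓞 H) : H))| ≤
            ∑ w ∈ A, b * (w.mult : ℝ) := by
          refine Finset.sum_le_sum fun w hw => ?_
          rw [abs_mul, abs_of_nonneg (hmult w), mul_comm]
          exact mul_le_mul_of_nonneg_right (hup w (Finset.mem_filter.1 hw).2) (hmult w)
        refine h4.trans ?_
        rw [← Finset.mul_sum]
        refine mul_le_mul_of_nonneg_left ?_ hb0
        exact Finset.sum_le_sum_of_subset_of_nonneg (Finset.subset_univ _) fun w _ _ => hmult w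
      have h4 : 1 ≤ ∑ w ∈ Aᶜ, (w.mult : ℝ) := by
        have h5 : w₁ ∈ Aᶜ := by
          rw [Finset.mem_compl]
          intro h6
          exact h₁ (Finset.mem_filter.1 h6).2
        exact (hmult1 w₁).trans (Finset.single_le_sum (f := fun w : InfinitePlace H => (w.mult : ℝ))
          (fun w _ => hmult w) h5)
      have h5 : (∑ w ∈ Aᶜ, (w.mult : ℝ)) * Real.log c =
          -∑ w ∈ A, (w.mult : ℝ) * Real.log (w ((ε : 𝓞 H) : H)) := by
        rw [← h2]
        linarith
      have h6 : (∑ w ∈ Aᶜ, (w.mult : ℝ)) * |Real.log c| ≤ b * D := by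
        have h7 : (∑ w ∈ Aᶜ, (w.mult : ℝ)) * |Real.log c| =
            |(∑ w ∈ Aᶜ, (w.mult : ℝ)) * Real.log c| := by
          rw [abs_mul, abs_of_nonneg (by linarith : (0 : ℝ) ≤ ∑ w ∈ Aᶜ, (w.mult : ℝ))]
        rw [h7, h5, abs_neg]
        exact h3
      nlinarith [abs_nonneg (Real.log c)]
    have hall : ∀ w : InfinitePlace H, Real.log (w ((ε : 𝓞 H) : H)) ≤ b + b * D := by
      intro w
      have hD0 : 0 ≤ D := Finset.sum_nonneg fun w _ => hmult w
      by_cases hw : w.comap (algebraMap K H) = w₀.comap (algebraMap K H)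
      · have h1 := (le_abs_self _).trans (hup w hw)
        have h2 : 0 ≤ b * D := mul_nonneg hb0 hD0
        linarith
      · rw [hc w hw]
        have h1 := (le_abs_self _).trans hcb
        linarith
    intro φ
    have h1 := hall (InfinitePlace.mk φ)
    have hne : ((ε : 𝓞 H) : H) ≠ 0 := Units.coe_ne_zero ε
    have h2 : 0 < (InfinitePlace.mk φ) ((ε : 𝓞 H) : H) := InfinitePlace.pos_iff.2 hne
    have h3 : (InfinitePlace.mk φ) ((ε : 𝓞 H) : H) ≤ R := by
      rw [hR, ← Real.log_le_iff_le_exp h2]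
      exact h1
    rwa [InfinitePlace.apply] at h3
  · intro a _ b' _ h
    have h1 : ((a : 𝓞 H) : H) = ((b' : 𝓞 H) : H) := h
    have h2 : (a : 𝓞 H) = (b' : 𝓞 H) := RingOfIntegers.ext h1
    exact Units.ext h2

/-- if the values at elements of a locally finite set come arbitrarily close to `z`, then `z` is a
value -/
theorem closed_of_finite {X G : Type} [Fintype G] (V : Set X) (f : X → G → ℝ)
    (hfin : ∀ b : ℝ, {x | x ∈ V ∧ ∀ g, |f x g| ≤ b}.Finite) (z : G → ℂ)
    (h : ∀ δ : ℝ, 0 < δ → ∃ x ∈ V, ∀ g, ‖(f x g : ℂ) - z g‖ < δ) :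
    ∃ x ∈ V, ∀ g, (f x g : ℂ) = z g := by
  classical
  set b : ℝ := 1 + ∑ g, ‖z g‖ with hb
  set F : Set X := {x | x ∈ V ∧ ∀ g, |f x g| ≤ b} with hF
  have hFf : F.Finite := hfin b
  have hmem : ∀ δ : ℝ, 0 < δ → δ ≤ 1 → ∃ x ∈ F, ∀ g, ‖(f x g : ℂ) - z g‖ < δ := by
    intro δ hδ hδ1
    obtain ⟨x, hx, hx1⟩ := h δ hδ
    refine ⟨x, ⟨hx, fun g => ?_⟩, hx1⟩
    have h1 : ‖(f x g : ℂ)‖ ≤ ‖(f x g : ℂ) - z g‖ + ‖z g‖ := by
      have := norm_add_le ((f x g : ℂ) - z g) (z g)
      rwa [sub_add_cancel] at this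
    rw [Complex.norm_real, Real.norm_eq_abs] at h1
    have h2 : ‖z g‖ ≤ ∑ g, ‖z g‖ :=
      Finset.single_le_sum (f := fun g => ‖z g‖) (fun g _ => norm_nonneg _) (Finset.mem_univ g)
    have h3 := hx1 g
    rw [hb]
    linarith
  by_contra hcon
  push Not at hcon
  have hne : F.Nonempty := by
    obtain ⟨x, hx, -⟩ := hmem 1 one_pos le_rfl
    exact ⟨x, hx⟩
  set d : X → ℝ := fun x => ∑ g, ‖(f x g : ℂ) - z g‖ with hd
  obtain ⟨x₀, hx₀, hmin⟩ := Set.exists_min_image F d hFf hne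
  have hpos : 0 < d x₀ := by
    obtain ⟨g, hg⟩ := hcon x₀ hx₀.1
    refine Finset.sum_pos' (fun g _ => norm_nonneg _) ⟨g, Finset.mem_univ g, ?_⟩
    rw [norm_pos_iff, sub_ne_zero]
    exact hg
  set n : ℝ := (Fintype.card G : ℝ) + 1 with hn
  have hn0 : 0 < n := by positivity
  obtain ⟨x, hx, hx1⟩ := hmem (min 1 (d x₀ / n)) (by positivity) (min_le_left _ _)
  have h4 : d x ≤ (Fintype.card G : ℝ) * (d x₀ / n) := by
    rw [hd]
    beta_reduce
    calc ∑ g, ‖(f x g : ℂ) - z g‖ ≤ ∑ _g : G, d x₀ / n :=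
          Finset.sum_le_sum fun g _ => (hx1 g).le.trans (min_le_right _ _)
      _ = (Fintype.card G : ℝ) * (d x₀ / n) := by
          rw [Finset.sum_const, Finset.card_univ, nsmul_eq_mul]
  have h5 : (Fintype.card G : ℝ) * (d x₀ / n) < d x₀ := by
    rw [mul_div_assoc', div_lt_iff₀ hn0]
    rw [hn]
    nlinarith
  exact absurd (hmin x hx) (by linarith)

end Pool.Agent.TH652.CX
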