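import Pool.Agent.H977R3.CM.Aut

/-! Equivariance under the automorphisms of `ℂ` and rationality in the group ring. -/

set_option autoImplicit false

namespace Pool.Agent.TH652.CX

/-- a complex number that is fixed by all automorphisms is rational -/
theorem rat_of_fixed {z : ℂ} (h : ∀ τ : ℂ ≃+* ℂ, τ z = z) : ∃ q : ℚ, (q : ℂ) = z := by
  by_cases hz : IsAlgebraic ℚ z
  · let Kb : IntermediateField ℚ ℂ := algebraicClosure ℚ ℂ
    have : Algebra.IsAlgebraic ℚ Kb := algebraicClosure.isAlgebraic ℚ ℂ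
    have : IsAlgClosure ℚ Kb := algebraicClosure.isAlgClosure ℚ ℂ
    have : IsGalois ℚ Kb := inferInstance
    let y : Kb := ⟨z, mem_algebraicClosure_iff.2 hz⟩
    have hy : y ∈ (⊥ : IntermediateField ℚ Kb) := by
      rw [InfiniteGalois.mem_bot_iff_fixed]
      intro g
      obtain ⟨τ, hτ⟩ := Pool.Agent.H977R3.CM.exists_aut (algebraMap Kb ℂ) (g : Kb ≃+* Kb)
      have h2 := h τ
      have h3 := hτ y
      change τ (y : ℂ) = ((g y : Kb) : ℂ) at h3
      apply Subtype.ext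
      rw [← h3]
      exact h2
    obtain ⟨x, hx⟩ := IntermediateField.mem_bot.1 hy
    refine ⟨x, ?_⟩
    have := congrArg (fun w : Kb => (w : ℂ)) hx
    simpa using this
  · exfalso
    have htr : Transcendental ℚ z := hz
    have hinj : Function.Injective (Polynomial.aeval z : Polynomial ℚ →ₐ[ℚ] ℂ) :=
      transcendental_iff_injective.1 htr
    let L := FractionRing (Polynomial ℚ)
    let j : L →+* ℂ := IsFractionRing.lift (A := Polynomial ℚ)
      (g := ((Polynomial.aeval z : Polynomial ℚ →ₐ[ℚ] ℂ) : Polynomial ℚ →+* ℂ)) hinj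
    have hj : ∀ p : Polynomial ℚ, j (algebraMap (Polynomial ℚ) L p) = Polynomial.aeval z p :=
      fun p => IsFractionRing.lift_algebraMap hinj p
    let e : Polynomial ℚ ≃+* Polynomial ℚ :=
      (Polynomial.algEquivAevalXAddC (1 : ℚ)).toRingEquiv
    let g : L ≃+* L := IsFractionRing.ringEquivOfRingEquiv e
    obtain ⟨τ, hτ⟩ := Pool.Agent.H977R3.CM.exists_aut j g
    have h1 := hτ (algebraMap (Polynomial ℚ) L Polynomial.X)
    have h2 : g (algebraMap (Polynomial ℚ) L Polynomial.X) =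
        algebraMap (Polynomial ℚ) L (Polynomial.X + Polynomial.C 1) := by
      rw [IsFractionRing.ringEquivOfRingEquiv_algebraMap]
      congr 1
      change Polynomial.algEquivAevalXAddC (1 : ℚ) Polynomial.X = _
      simp
    rw [h2, hj, hj, Polynomial.aeval_X, h τ] at h1
    simp at h1

variable {G : Type} [Group G]

/-- the character `σ ∘ χ` -/
noncomputable def sact (σ : ℂ ≃+* ℂ) (χ : G →* ℂˣ) : G →* ℂˣ :=
  (Units.map ((σ : ℂ →+* ℂ) : ℂ →* ℂ)).comp χ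

theorem sact_apply (σ : ℂ ≃+* ℂ) (χ : G →* ℂˣ) (g : G) :
    ((sact σ χ g : ℂˣ) : ℂ) = σ ((χ g : ℂˣ) : ℂ) := rfl

/-- the action on the characters is bijective -/
noncomputable def sequiv (σ : ℂ ≃+* ℂ) : (G →* ℂˣ) ≃ (G →* ℂˣ) where
  toFun := sact σ
  invFun := sact σ.symm
  left_inv χ := by
    refine MonoidHom.ext fun g => Units.ext ?_
    rw [sact_apply, sact_apply]
    exact σ.symm_apply_apply _
  right_inv χ := by
    refine MonoidHom.ext fun g => Units.ext ?_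
    rw [sact_apply, sact_apply]
    exact σ.apply_symm_apply _

variable [Fintype G] [Fintype (G →* ℂˣ)]

open Classical in
theorem sum_elt (ψ χ : G →* ℂˣ) :
    ∑ g : G, ((ψ g : ℂˣ) : ℂ) * (((χ g)⁻¹ : ℂˣ) : ℂ) = if ψ = χ then (Nat.card G : ℂ) else 0 := by
  have h1 : ∀ g : G, ((ψ g : ℂˣ) : ℂ) * (((χ g)⁻¹ : ℂˣ) : ℂ) =
      ((Units.coeHom ℂ).comp (ψ * χ⁻¹)) g := by
    intro g
    simp
  simp only [h1]
  rw [sum_hom_units]
  have h2 : ((Units.coeHom ℂ).comp (ψ * χ⁻¹) = 1) ↔ ψ = χ := by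
    rw [← mul_inv_eq_one (a := ψ) (b := χ)]
    constructor
    · intro h
      refine MonoidHom.ext fun g => Units.ext ?_
      have := DFunLike.congr_fun h g
      exact this
    · intro h
      rw [h]
      refine MonoidHom.ext fun g => ?_
      simp
  by_cases h3 : ψ = χ
  · rw [if_pos h3, if_pos (h2.2 h3), Nat.card_eq_fintype_card]
  · rw [if_neg h3, if_neg fun h => h3 (h2.1 h)]
    simp

theorem inv_fourier (Λ : (G →* ℂˣ) → ℂ) (ψ : G →* ℂˣ) :
    Λ ψ = ∑ g : G, ((ψ g : ℂˣ) : ℂ) *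
      ((Nat.card G : ℂ)⁻¹ * ∑ χ : G →* ℂˣ, (((χ g)⁻¹ : ℂˣ) : ℂ) * Λ χ) := by
  classical
  have hG : (Nat.card G : ℂ) ≠ 0 := by exact_mod_cast Nat.card_pos.ne'
  have h1 : ∀ g : G, ((ψ g : ℂˣ) : ℂ) *
      ((Nat.card G : ℂ)⁻¹ * ∑ χ : G →* ℂˣ, (((χ g)⁻¹ : ℂˣ) : ℂ) * Λ χ) =
      ∑ χ : G →* ℂˣ, (Nat.card G : ℂ)⁻¹ * Λ χ *
        (((ψ g : ℂˣ) : ℂ) * (((χ g)⁻¹ : ℂˣ) : ℂ)) := by
    intro g
    rw [Finset.mul_sum, Finset.mul_sum]
    refine Finset.sum_congr rfl fun χ _ => ?_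
    ring
  simp only [h1]
  rw [Finset.sum_comm]
  simp only [← Finset.mul_sum, sum_elt]
  simp only [mul_ite, mul_zero, Finset.sum_ite_eq, Finset.mem_univ, if_true]
  field_simp

/-- **equivariance is rationality in the group ring** -/
theorem equiv_rat (Λ : (G →* ℂˣ) → ℂ) :
    (∀ (σ : ℂ ≃+* ℂ) (ψ ψ' : G →* ℂˣ), (∀ g, ((ψ' g : ℂˣ) : ℂ) = σ ((ψ g : ℂˣ) : ℂ)) →
      σ (Λ ψ) = Λ ψ') ↔
    ∀ g : G, ∃ r : ℚ, (Nat.card G : ℂ)⁻¹ * ∑ χ : G →* ℂˣ, (((χ g)⁻¹ : ℂˣ) : ℂ) * Λ χ = r := by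
  constructor
  · intro h g
    obtain ⟨r, hr⟩ := rat_of_fixed
      (z := (Nat.card G : ℂ)⁻¹ * ∑ χ : G →* ℂˣ, (((χ g)⁻¹ : ℂˣ) : ℂ) * Λ χ) fun τ => by
        rw [map_mul, map_inv₀, map_natCast, map_sum]
        congr 1
        refine Fintype.sum_equiv (sequiv τ) _ _ fun χ => ?_
        have h1 : τ (Λ χ) = Λ (sact τ χ) := h τ χ (sact τ χ) fun g => rfl
        rw [map_mul, h1, Units.val_inv_eq_inv_val, map_inv₀]
        change _ = (((sact τ χ g)⁻¹ : ℂˣ) : ℂ) * Λ (sact τ χ)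
        rw [Units.val_inv_eq_inv_val, sact_apply]
    exact ⟨r, hr.symm⟩
  · intro h σ ψ ψ' hψ
    choose c hc using h
    rw [inv_fourier Λ ψ, inv_fourier Λ ψ']
    simp only [hc]
    rw [map_sum]
    refine Finset.sum_congr rfl fun g _ => ?_
    rw [map_mul, map_ratCast, hψ]

end Pool.Agent.TH652.CX
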