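import Mathlib

/-! Continuation of a logarithm along a real half line. -/

set_option autoImplicit false

namespace Pool.Agent.TH652.CX

open Filter Topology Set Complex

theorem isSimplyConnected_of_convex {U : Set ℂ} (hU : Convex ℝ U) (hne : U.Nonempty) :
    IsSimplyConnected U := by
  have := hU.contractibleSpace hne
  exact (inferInstance : SimplyConnectedSpace U)

/-- a continuous logarithm of an analytic function is analytic -/
theorem log_analytic {H l : ℂ → ℂ} {z : ℂ} (hH : AnalyticAt ℂ H z) (hl : ContinuousAt l z)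
    (he : ∀ᶠ w in 𝓝 z, exp (l w) = H w) : AnalyticAt ℂ l z := by
  have hz : exp (l z) = H z := he.self_of_nhds
  have h0 : H z ≠ 0 := by rw [← hz]; exact exp_ne_zero _
  have h1 : AnalyticAt ℂ (fun w => l z + log (H w / H z)) z := by
    refine analyticAt_const.add (AnalyticAt.clog (hH.div analyticAt_const h0) ?_)
    rw [div_self h0]
    exact one_mem_slitPlane
  refine h1.congr ?_
  have h2 : ∀ᶠ w in 𝓝 z, ‖l w - l z‖ < 1 := by
    have h3 : Tendsto (fun w => l w - l z) (𝓝 z) (𝓝 (l z - l z)) := hl.sub tendsto_const_nhds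
    rw [sub_self] at h3
    have h4 := h3.norm
    rw [norm_zero] at h4
    exact h4.eventually_lt_const one_pos
  filter_upwards [he, h2] with w hw hw2
  have h5 := Complex.abs_im_le_norm (l w - l z)
  have h6 := Real.pi_gt_three
  have h7 := neg_abs_le (l w - l z).im
  have h8 := le_abs_self (l w - l z).im
  rw [← hw, ← hz, ← Complex.exp_sub, Complex.log_exp]
  · ring
  · linarith
  · linarith

theorem branch_ext {H u : ℂ → ℂ} {s₀ σ₂ : ℝ}
    (hH : ∀ x : ℝ, s₀ ≤ x → MeromorphicAt H (x : ℂ) ∧ meromorphicOrderAt H (x : ℂ) = 0)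
    (hu : ∀ s : ℂ, σ₂ < s.re → AnalyticAt ℂ u s)
    (hHu : ∀ s : ℂ, σ₂ < s.re → H s = exp (u s)) :
    ∃ v : ℂ → ℂ, (∀ x : ℝ, s₀ ≤ x → AnalyticAt ℂ v (x : ℂ)) ∧
      (∀ s : ℂ, σ₂ < s.re → v s = u s) ∧
      ∀ x : ℝ, s₀ ≤ x → ∀ᶠ s in 𝓝[≠] (x : ℂ), H s = exp (v s) := by
  classical
  set R : ℝ := max s₀ σ₂ + 1 with hR
  have hR0 : s₀ ≤ R := by have := le_max_left s₀ σ₂; linarith
  have hR2 : σ₂ < R := by have := le_max_right s₀ σ₂; linarith
  set K : Set ℂ := (fun x : ℝ => (x : ℂ)) '' Icc s₀ R with hK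
  have hKc : IsCompact K := isCompact_Icc.image (by fun_prop)
  have hKconv : Convex ℝ K := (convex_Icc s₀ R).linear_image Complex.ofRealCLM.toLinearMap
  have hKne : K.Nonempty := ⟨_, ⟨s₀, ⟨le_rfl, hR0⟩, rfl⟩⟩
  have hopen : IsOpen {z : ℂ | σ₂ < z.re} := isOpen_lt continuous_const Complex.continuous_re
  have hHa : ∀ s : ℂ, σ₂ < s.re → AnalyticAt ℂ H s := by
    intro s hs
    refine ((hu s hs).cexp).congr ?_
    filter_upwards [hopen.mem_nhds hs] with w hw
    exact (hHu w hw).symm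
  set M : Set ℂ := {z | MeromorphicAt H z} with hM
  have hHm : MeromorphicOn H M := fun z hz => hz
  set Q : ℂ → ℂ := toMeromorphicNFOn H M with hQ
  have hNF : MeromorphicNFOn Q M := meromorphicNFOn_toMeromorphicNFOn H M
  have hord : ∀ x : ℝ, s₀ ≤ x → meromorphicOrderAt Q (x : ℂ) = 0 := by
    intro x hx
    rw [hQ, meromorphicOrderAt_toMeromorphicNFOn hHm (hH x hx).1, (hH x hx).2]
  have hQa : ∀ x : ℝ, s₀ ≤ x → AnalyticAt ℂ Q (x : ℂ) := fun x hx =>
    (hNF (hH x hx).1).meromorphicOrderAt_nonneg_iff_analyticAt.1 (hord x hx).ge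
  have hQ0 : ∀ x : ℝ, s₀ ≤ x → Q (x : ℂ) ≠ 0 := fun x hx =>
    (hNF (hH x hx).1).meromorphicOrderAt_eq_zero_iff.1 (hord x hx)
  have hQne : ∀ z ∈ M, Q =ᶠ[𝓝[≠] z] H := fun z hz =>
    hHm.toMeromorphicNFOn_eq_self_on_nhdsNE hz
  set V : Set ℂ := {z | AnalyticAt ℂ Q z ∧ Q z ≠ 0} with hV
  have hVo : IsOpen V := by
    rw [isOpen_iff_mem_nhds]
    rintro w ⟨hw1, hw2⟩
    filter_upwards [hw1.eventually_analyticAt, hw1.continuousAt.eventually_ne hw2] with v h3 h4
    exact ⟨h3, h4⟩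
  have hKV : K ⊆ V := by
    rintro _ ⟨x, hx, rfl⟩
    exact ⟨hQa x hx.1, hQ0 x hx.1⟩
  obtain ⟨δ, hδ, hsub⟩ := hKc.exists_thickening_subset_open hVo hKV
  set U : Set ℂ := Metric.thickening δ K with hU
  have hUo : IsOpen U := Metric.isOpen_thickening
  have hKU : K ⊆ U := Metric.self_subset_thickening hδ K
  have hUconv : Convex ℝ U := hKconv.thickening δ
  have hUs : IsSimplyConnected U := isSimplyConnected_of_convex hUconv (hKne.mono hKU)
  obtain ⟨l, hlc, hle⟩ := exists_continuousOn_eqOn_exp_comp hUs hUo (g := Q)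
    (fun z hz => (hsub hz).1.continuousAt.continuousWithinAt) (by
      rintro ⟨z, hz, h0⟩
      exact (hsub hz).2 h0)
  have hle' : ∀ z ∈ U, exp (l z) = Q z := fun z hz => hle hz
  have hla : ∀ z ∈ U, AnalyticAt ℂ l z := by
    intro z hz
    refine log_analytic (hsub hz).1 (hlc.continuousAt (hUo.mem_nhds hz)) ?_
    filter_upwards [hUo.mem_nhds hz] with w hw
    exact hle' w hw
  set W : Set ℂ := U ∩ {z : ℂ | σ₂ < z.re} with hW
  have hWconv : Convex ℝ W := hUconv.inter (convex_halfSpace_re_gt σ₂)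
  have hQH : ∀ z ∈ W, Q z = H z := by
    rintro z ⟨hz1, hz2⟩
    have h1 := hHa z hz2
    have h2 := hQne z h1.meromorphicAt
    have h3 := (hsub hz1).1.continuousAt.eventuallyEq_nhds_iff_eventuallyEq_nhdsNE
      h1.continuousAt
    exact (h3.1 h2).eq_of_nhds
  have hDm : MapsTo (fun z => l z - u z) W (AddSubgroup.zmultiples (2 * Real.pi * I) : Set ℂ) := by
    intro z hz
    have h1 : exp (l z) = exp (u z) := by rw [hle' z hz.1, hQH z hz, hHu z hz.2]
    obtain ⟨n, hn⟩ := Complex.exp_eq_exp_iff_exists_int.1 h1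
    refine ⟨n, ?_⟩
    simp only [zsmul_eq_mul]
    rw [hn]
    ring
  have hdisc : IsDiscrete (AddSubgroup.zmultiples (2 * Real.pi * I) : Set ℂ) := by
    rw [isDiscrete_iff_discreteTopology]
    exact NormedSpace.discreteTopology_zmultiples _
  have hRW : ((R : ℝ) : ℂ) ∈ W := ⟨hKU ⟨R, ⟨hR0, le_rfl⟩, rfl⟩, by
    simp only [Set.mem_ofPred_eq, Complex.ofReal_re]
    exact hR2⟩
  have hDc : ContinuousOn (fun z => l z - u z) W := fun z hz =>
    ((hla z hz.1).continuousAt.sub (hu z hz.2).continuousAt).continuousWithinAt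
  set c : ℂ := l R - u R with hc
  have hcon : ∀ z ∈ W, l z - u z = c := fun z hz =>
    hWconv.isPreconnected.constant_of_mapsTo hdisc hDc hDm hz hRW
  have hec : exp c = 1 := by
    obtain ⟨n, hn⟩ := hDm hRW
    simp only [zsmul_eq_mul] at hn
    rw [hc, ← hn]
    exact Complex.exp_int_mul_two_pi_mul_I n
  refine ⟨fun s => if s ∈ U then l s - c else u s, ?_, ?_, ?_⟩
  · intro x hx
    by_cases hxR : x ≤ R
    · have hxU : (x : ℂ) ∈ U := hKU ⟨x, ⟨hx, hxR⟩, rfl⟩
      have hsc : AnalyticAt ℂ (fun s => l s - c) ((x : ℝ) : ℂ) :=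
        (hla _ hxU).sub (analyticAt_const (v := c))
      refine hsc.congr ?_
      filter_upwards [hUo.mem_nhds hxU] with w hw
      rw [if_pos hw]
    · push Not at hxR
      have hx2 : σ₂ < ((x : ℝ) : ℂ).re := by rw [Complex.ofReal_re]; linarith
      refine (hu _ hx2).congr ?_
      filter_upwards [hopen.mem_nhds hx2] with w hw
      by_cases hwU : w ∈ U
      · rw [if_pos hwU, ← hcon w ⟨hwU, hw⟩]
        ring
      · rw [if_neg hwU]
  · intro s hs
    by_cases hsU : s ∈ U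
    · simp only [if_pos hsU]
      rw [← hcon s ⟨hsU, hs⟩]
      ring
    · simp only [if_neg hsU]
  · intro x hx
    by_cases hxR : x ≤ R
    · have hxU : (x : ℂ) ∈ U := hKU ⟨x, ⟨hx, hxR⟩, rfl⟩
      filter_upwards [hQne _ (hH x hx).1, mem_nhdsWithin_of_mem_nhds (hUo.mem_nhds hxU)] with w h1 h2
      simp only [if_pos h2]
      rw [Complex.exp_sub, hle' w h2, hec, div_one, h1]
    · push Not at hxR
      have hx2 : σ₂ < ((x : ℝ) : ℂ).re := by rw [Complex.ofReal_re]; linarith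
      filter_upwards [mem_nhdsWithin_of_mem_nhds (hopen.mem_nhds hx2)] with w hw
      rw [hHu w hw]
      by_cases hwU : w ∈ U
      · simp only [if_pos hwU]
        rw [← hcon w ⟨hwU, hw⟩]
        congr 1
        ring
      · simp only [if_neg hwU]

end Pool.Agent.TH652.CX
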