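import Pool.Agent.TH652.CX.Ab

/-! Euler products with complex coefficients: the value at a real point from the primes. -/

set_option autoImplicit false

namespace Pool.Agent.TH652.CX

open Filter Topology Set Polynomial
open Pool.Agent.W189.ML Pool.Agent.W189.LC
open Pool.Agent.W187.UR hiding excess
open Pool.Agent.TH652.COL Pool.Agent.TH652.ART

variable {P : Type} {q : P → ℝ}

/-- majorizing polynomials -/
noncomputable def mB (q : P → ℝ) (β : ℝ) (v : P) : ℝ[X] := 1 - C (q v ^ β) * X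

theorem mB_roots (hq : ∀ v, 2 ≤ q v) (β : ℝ) (v : P) :
    ((mB q β v).map (algebraMap ℝ ℂ)).roots = {(((q v ^ β : ℝ) : ℂ))⁻¹} := by
  have h0 : 0 < q v := by linarith [hq v]
  have ha : ((q v ^ β : ℝ) : ℂ) ≠ 0 := by exact_mod_cast (Real.rpow_pos_of_pos h0 β).ne'
  have h1 : (mB q β v).map (algebraMap ℝ ℂ) =
      C (-((q v ^ β : ℝ) : ℂ)) * (X - C (((q v ^ β : ℝ) : ℂ))⁻¹) := by
    unfold mB
    rw [mul_sub, ← C_mul, neg_mul, mul_inv_cancel₀ ha]
    simp only [Polynomial.map_sub, Polynomial.map_one, Polynomial.map_mul, Polynomial.map_C,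
      Polynomial.map_X, Complex.coe_algebraMap, map_neg, map_one]
    ring
  rw [h1, Polynomial.roots_C_mul _ (neg_ne_zero.2 ha), Polynomial.roots_X_sub_C]

theorem mB_pw (hq : ∀ v, 2 ≤ q v) (β : ℝ) (v : P) (k : ℕ) : pw (mB q β v) k = (q v ^ β) ^ k := by
  unfold pw
  rw [mB_roots hq β v]
  simp only [Multiset.map_singleton, Multiset.sum_singleton, inv_inv]
  rw [← Complex.ofReal_pow, Complex.ofReal_re]

theorem mB_data (hq : ∀ v, 2 ≤ q v) {δ : ℝ} (hδ : 0 ≤ δ)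
    (hs : ∀ σ : ℝ, δ < σ → Summable fun v => q v ^ (-σ)) (β : ℝ) : LData q (mB q β) δ β 1 where
  two_le := hq
  δ_nonneg := hδ
  sum := hs
  const := fun v => by
    unfold mB
    simp
  deg := fun v => by
    unfold mB
    refine (Polynomial.natDegree_sub_le _ _).trans ?_
    refine max_le (by simp) ?_
    exact (Polynomial.natDegree_C_mul_le _ _).trans (by simp)
  root := fun v ρ hρ => by
    have h0 : 0 < q v := by linarith [hq v]
    have h1 : ρ ∈ ((mB q β v).map (algebraMap ℝ ℂ)).roots := by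
      refine (Polynomial.mem_roots ?_).2 hρ
      intro h
      have := congrArg (fun f : ℂ[X] => f.coeff 0) h
      simp [mB] at this
    rw [mB_roots hq, Multiset.mem_singleton] at h1
    rw [h1, norm_inv, Complex.norm_real, Real.norm_eq_abs,
      abs_of_pos (Real.rpow_pos_of_pos h0 β), Real.rpow_neg h0.le]

/-- the power sums of the inverse roots -/
noncomputable def psum (Q : ℂ[X]) (k : ℕ) : ℂ := (Q.roots.map fun ρ => (ρ⁻¹) ^ k).sum

theorem norm_psum_le (Q : ℂ[X]) {n : ℕ} (hn : Q.natDegree ≤ n) {R : ℝ} (hR : 0 < R)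
    (hr : ∀ ρ : ℂ, Q.IsRoot ρ → R⁻¹ ≤ ‖ρ‖) (k : ℕ) : ‖psum Q k‖ ≤ n * R ^ k := by
  have h2 : ∀ s : Multiset ℂ, (∀ ρ ∈ s, R⁻¹ ≤ ‖ρ‖) →
      ‖(s.map fun ρ => (ρ⁻¹) ^ k).sum‖ ≤ s.card * R ^ k := by
    intro s
    induction s using Multiset.induction_on with
    | empty => simp
    | cons a s ih =>
      intro hs
      rw [Multiset.map_cons, Multiset.sum_cons, Multiset.card_cons]
      have h3 := ih fun ρ hρ => hs ρ (Multiset.mem_cons_of_mem hρ)
      have h4 := hs a (Multiset.mem_cons_self a s)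
      have h5 : ‖(a⁻¹) ^ k‖ ≤ R ^ k := by
        rw [norm_pow, norm_inv]
        have h6 : (0 : ℝ) < R⁻¹ := by positivity
        have : ‖a‖⁻¹ ≤ R := by
          rw [inv_le_comm₀ (lt_of_lt_of_le h6 h4) hR]
          exact h4
        gcongr
      have h7 := norm_add_le ((a⁻¹) ^ k) ((s.map fun ρ => (ρ⁻¹) ^ k).sum)
      push_cast
      linarith
  have h3 : Q.roots.card ≤ n := (Polynomial.card_roots' _).trans hn
  refine (h2 _ fun ρ hρ => hr ρ (Polynomial.isRoot_of_mem_roots hρ)).trans ?_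
  have : (Q.roots.card : ℝ) ≤ n := by exact_mod_cast h3
  gcongr

theorem cfactor (Q : ℂ[X]) (h0 : Q.coeff 0 = 1) {z : ℂ} (hz : ∀ ρ : ℂ, Q.IsRoot ρ → ‖z‖ < ‖ρ‖) :
    HasSum (fun n : ℕ => psum Q (n + 1) * z ^ (n + 1) / ((n + 1 : ℕ) : ℂ))
      (∑' n : ℕ, psum Q (n + 1) * z ^ (n + 1) / ((n + 1 : ℕ) : ℂ)) ∧
    Complex.exp (∑' n : ℕ, psum Q (n + 1) * z ^ (n + 1) / ((n + 1 : ℕ) : ℂ)) = (Q.eval z)⁻¹ := by
  have h1 := multiset_log (Q.roots.map fun ρ => ρ⁻¹) z (by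
    intro a ha
    obtain ⟨ρ, hρ, rfl⟩ := Multiset.mem_map.1 ha
    have h2 := hz ρ (Polynomial.isRoot_of_mem_roots hρ)
    have h3 : 0 < ‖ρ‖ := lt_of_le_of_lt (norm_nonneg _) h2
    rw [norm_mul, norm_inv, inv_mul_lt_one₀ h3]
    exact h2)
  simp only [Multiset.map_map, Function.comp_def] at h1
  unfold psum
  refine ⟨h1.1.summable.hasSum, ?_⟩
  rw [h1.1.tsum_eq, h1.2, eval_eq_prod Q h0]

/-- Euler products with complex coefficients -/
structure CData (q : P → ℝ) (Q : P → ℂ[X]) (δ β : ℝ) (n : ℕ) : Prop where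
  two_le : ∀ v, 2 ≤ q v
  δ_nonneg : 0 ≤ δ
  sum : ∀ σ : ℝ, δ < σ → Summable fun v => q v ^ (-σ)
  const : ∀ v, (Q v).coeff 0 = 1
  deg : ∀ v, (Q v).natDegree ≤ n
  root : ∀ v, ∀ ρ : ℂ, (Q v).IsRoot ρ → q v ^ (-β) ≤ ‖ρ‖

variable {Q : P → ℂ[X]} {δ β : ℝ} {n : ℕ}

theorem CData.ldata (E : CData q Q δ β n) : LData q (mB q β) δ β 1 :=
  mB_data E.two_le E.δ_nonneg E.sum β

/-- the weights -/
noncomputable def gw (q : P → ℝ) (Q : P → ℂ[X]) (β : ℝ) (x : P × ℕ) : ℂ :=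
  psum (Q x.1) (x.2 + 1) / (((q x.1 ^ β) ^ (x.2 + 1) : ℝ) : ℂ)

theorem gw_norm (E : CData q Q δ β n) (x : P × ℕ) : ‖gw q Q β x‖ ≤ n := by
  have h0 : 0 < q x.1 := by linarith [E.two_le x.1]
  have hR : 0 < q x.1 ^ β := Real.rpow_pos_of_pos h0 β
  have h1 := norm_psum_le (Q x.1) (E.deg x.1) hR (fun ρ hρ => by
    rw [← Real.rpow_neg h0.le]
    exact E.root x.1 ρ hρ) (x.2 + 1)
  unfold gw
  rw [norm_div, Complex.norm_real, Real.norm_eq_abs, abs_of_pos (pow_pos hR _),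
    div_le_iff₀ (pow_pos hR _)]
  exact h1

theorem gw_lt (E : CData q Q δ β n) (s : ℂ) (x : P × ℕ) :
    gw q Q β x * lt q (mB q β) s x =
      psum (Q x.1) (x.2 + 1) * ((q x.1 : ℂ) ^ (-s)) ^ (x.2 + 1) / ((x.2 + 1 : ℕ) : ℂ) := by
  have h0 : 0 < q x.1 := by linarith [E.two_le x.1]
  have hR : (((q x.1 ^ β) ^ (x.2 + 1) : ℝ) : ℂ) ≠ 0 := by
    exact_mod_cast (pow_pos (Real.rpow_pos_of_pos h0 β) _).ne'
  unfold gw lt
  rw [mB_pw E.two_le, mul_div_assoc', div_mul_eq_mul_div]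
  congr 1
  rw [mul_left_comm, mul_div_cancel_left₀ _ hR]

theorem g_prod (E : CData q Q δ β n) {s : ℂ} (hs : δ + β < s.re) :
    ∏' v, ((Q v).eval ((q v : ℂ) ^ (-s)))⁻¹ =
      Complex.exp (∑' x, gw q Q β x * lt q (mB q β) s x) := by
  have h0 : β < s.re := by
    have := E.δ_nonneg
    linarith
  have hz : ∀ v, ∀ ρ : ℂ, (Q v).IsRoot ρ → ‖(q v : ℂ) ^ (-s)‖ < ‖ρ‖ := by
    intro v ρ hρ
    have hq : 0 < q v := by linarith [E.two_le v]
    refine lt_of_lt_of_le ?_ (E.root v ρ hρ)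
    rw [Complex.norm_cpow_eq_rpow_re_of_pos hq, Complex.neg_re]
    exact Real.rpow_lt_rpow_of_exponent_lt (by linarith [E.two_le v]) (by linarith)
  have h1 := (tlt_summable E.ldata (gw_norm E) hs).hasSum
  simp only [gw_lt E] at h1
  have h2 := h1.prod_fiberwise (g := fun v => ∑' k : ℕ, psum (Q v) (k + 1) *
    ((q v : ℂ) ^ (-s)) ^ (k + 1) / ((k + 1 : ℕ) : ℂ))
    (fun v => (cfactor (Q v) (E.const v) (hz v)).1)
  have h3 := h2.cexp
  have h4 : HasProd (fun v => ((Q v).eval ((q v : ℂ) ^ (-s)))⁻¹)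
      (Complex.exp (∑' x : P × ℕ, psum (Q x.1) (x.2 + 1) * ((q x.1 : ℂ) ^ (-s)) ^ (x.2 + 1) /
        ((x.2 + 1 : ℕ) : ℂ))) :=
    h3.congr_fun fun v => ((cfactor (Q v) (E.const v) (hz v)).2).symm
  rw [h4.tprod_eq]
  simp only [gw_lt E]

/-- the tail is negligible -/
theorem ccut {B : P → ℝ[X]} {N : ℕ} (E : LData q B δ β N) {c : P × ℕ → ℂ} {W : ℝ}
    (hc : ∀ x, ‖c x‖ ≤ W) (hfin : ∀ R : ℝ, {v | q v ≤ R}.Finite)
    (s₀ γ : ℝ) {A : ℝ} (hA : 0 < A) (hA1 : δ + β - s₀ < A) :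
    (fun T : ℝ => csum q B c s₀ γ T - ∑ᶠ x ∈ cut q A T, c x * lterm q B s₀ γ T x) =O[atTop]
      (fun T : ℝ => 1 / T) := by
  set V : ℝ := |W| + 1 with hV
  have hV0 : 0 < V := by positivity
  have hWV : W ≤ V := by
    have := le_abs_self W
    rw [hV]
    linarith
  set a : P × ℕ → ℝ := fun x => (c x).re / V with ha
  set b : P × ℕ → ℝ := fun x => (c x).im / V with hb
  have ha1 : ∀ x, |a x| ≤ 1 := fun x => by
    rw [ha]
    beta_reduce
    rw [abs_div, abs_of_pos hV0, div_le_one hV0]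
    exact ((Complex.abs_re_le_norm _).trans (hc x)).trans hWV
  have hb1 : ∀ x, |b x| ≤ 1 := fun x => by
    rw [hb]
    beta_reduce
    rw [abs_div, abs_of_pos hV0, div_le_one hV0]
    exact ((Complex.abs_im_le_norm _).trans (hc x)).trans hWV
  have hVc : (V : ℂ) ≠ 0 := by exact_mod_cast hV0.ne'
  have hcx : ∀ x, c x = V * (a x) + V * Complex.I * (b x) := by
    intro x
    have h1 := split_re_im (c x)
    rw [ha, hb]
    push_cast
    field_simp
    rw [h1]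
    simp
  have h1 := (wcut E ha1 hfin s₀ γ hA hA1).const_mul_left (V : ℂ)
  have h2 := (wcut E hb1 hfin s₀ γ hA hA1).const_mul_left ((V : ℂ) * Complex.I)
  refine (h1.add h2).congr' ?_ EventuallyEq.rfl
  filter_upwards [eventually_gt_atTop 0] with T hT
  have hcf := cut_finite E.two_le hfin A T
  have e1 : csum q B c s₀ γ T = V * wsum q B a s₀ γ T + V * Complex.I * wsum q B b s₀ γ T := by
    unfold csum wsum
    rw [← tsum_mul_left, ← tsum_mul_left, ← ((wsummable E ha1 s₀ γ hT).mul_left _).tsum_add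
      ((wsummable E hb1 s₀ γ hT).mul_left _)]
    refine tsum_congr fun x => ?_
    rw [hcx x]
    ring
  have e2 : ∑ᶠ x ∈ cut q A T, c x * lterm q B s₀ γ T x =
      V * ∑ᶠ x ∈ cut q A T, (a x : ℂ) * lterm q B s₀ γ T x +
        V * Complex.I * ∑ᶠ x ∈ cut q A T, (b x : ℂ) * lterm q B s₀ γ T x := by
    rw [finsum_mem_eq_finite_toFinset_sum _ hcf, finsum_mem_eq_finite_toFinset_sum _ hcf,
      finsum_mem_eq_finite_toFinset_sum _ hcf, Finset.mul_sum, Finset.mul_sum,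
      ← Finset.sum_add_distrib]
    refine Finset.sum_congr rfl fun x _ => ?_
    rw [hcx x]
    ring
  rw [e1, e2]
  ring

/-- the value and the leading coefficient -/
theorem value_trailing {F : ℂ → ℂ} {m : ℤ} {z₀ : ℂ} (ha : AnalyticAt ℂ F z₀)
    (hm : meromorphicOrderAt F z₀ = m) :
    0 ≤ m ∧ F z₀ = if m = 0 then meromorphicTrailingCoeffAt F z₀ else 0 := by
  have h1 : (0 : WithTop ℤ) ≤ (m : WithTop ℤ) := by
    rw [← hm]
    exact ha.meromorphicOrderAt_nonneg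
  have h2 : 0 ≤ m := by exact_mod_cast h1
  refine ⟨h2, ?_⟩
  by_cases h3 : F z₀ = 0
  · have h4 : m ≠ 0 := by
      intro h5
      rw [h5] at hm
      rw [ha.meromorphicOrderAt_eq] at hm
      have h6 : analyticOrderAt F z₀ ≠ 0 := ha.analyticOrderAt_ne_zero.2 h3
      have h7 : analyticOrderAt F z₀ ≠ ⊤ := by
        intro h8
        rw [h8] at hm
        exact absurd hm (by simp)
      obtain ⟨k, hk⟩ := ENat.ne_top_iff_exists.1 h7
      rw [← hk] at hm h6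
      have h9 : ((k : ℤ) : WithTop ℤ) = ((0 : ℤ) : WithTop ℤ) := hm
      have h10 : (k : ℤ) = 0 := by exact_mod_cast h9
      have h11 : k = 0 := by exact_mod_cast h10
      exact h6 (by rw [h11]; rfl)
    rw [if_neg h4, h3]
  · have h4 : meromorphicOrderAt F z₀ = 0 := by
      rw [ha.meromorphicOrderAt_eq, ha.analyticOrderAt_eq_zero.2 h3]
      rfl
    have h5 : m = 0 := by
      have : (m : WithTop ℤ) = ((0 : ℤ) : WithTop ℤ) := by rw [← hm, h4]; rfl
      exact_mod_cast this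
    rw [if_pos h5, ha.meromorphicTrailingCoeffAt_of_ne_zero h3]

/-- **the value at a real point** -/
theorem value_law [Countable P] (E : CData q Q δ β n) (hfin : ∀ R : ℝ, {v | q v ≤ R}.Finite)
    {F : ℂ → ℂ} {s₀ σ₁ : ℝ} (hmer : ∀ x : ℝ, s₀ ≤ x → MeromorphicAt F (x : ℂ))
    (hF : ∀ s : ℂ, σ₁ < s.re → F s = ∏' v, ((Q v).eval ((q v : ℂ) ^ (-s)))⁻¹)
    (han : AnalyticAt ℂ F (s₀ : ℂ)) {γ : ℝ} (hγ : Real.pi / 2 < γ) {A : ℝ} (hA : 0 < A)
    (hA1 : δ + β - s₀ < A) :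
    (fun T : ℝ => Complex.exp (-∑ᶠ x ∈ cut q A T, gw q Q β x * lterm q (mB q β) s₀ γ T x) -
      F (s₀ : ℂ)) =O[atTop] (fun T : ℝ => 1 / T) := by
  obtain ⟨m, r, hm, hr, hlaw⟩ := claw E.ldata (gw_norm E) (F := F) (s₀ := s₀)
    (σ₁ := max σ₁ (δ + β)) hmer fun s hs => by
      rw [hF s (lt_of_le_of_lt (le_max_left _ _) hs),
        g_prod E (lt_of_le_of_lt (le_max_right _ _) hs)]
  obtain ⟨hm0, hval⟩ := value_trailing han hm
  have h1 := (hlaw γ hγ).sub (ccut E.ldata (gw_norm E) hfin s₀ γ hA hA1)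
  have h2 : (fun T : ℝ => (∑ᶠ x ∈ cut q A T, gw q Q β x * lterm q (mB q β) s₀ γ T x +
      (Real.log T - Lam γ)) - (((m + 1 : ℤ) : ℂ) * (Real.log T - Lam γ) - r)) =O[atTop]
      (fun T : ℝ => 1 / T) := by
    refine h1.congr_left fun T => ?_
    push_cast
    ring
  have h3 := exp_law (by omega : 1 ≤ m + 1) h2
  rw [hval, ← hr]
  refine h3.congr' ?_ EventuallyEq.rfl
  filter_upwards [eventually_gt_atTop 0] with T hT
  have h4 : (T : ℂ) = Complex.exp (Real.log T : ℝ) := by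
    rw [← Complex.ofReal_exp, Real.exp_log hT]
  nth_rewrite 1 [h4]
  rw [← Complex.exp_add, ← Complex.exp_add]
  have h5 : (m + 1 = 1) ↔ m = 0 := by omega
  simp only [h5]
  congr 2
  ring

end Pool.Agent.TH652.CX
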