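import Mathlib

/-! Algebraic integers form a locally finite set in the product of the complex embeddings; ratios of
archimedean factors. -/

set_option autoImplicit false

namespace Pool.Agent.TH652.CX

open NumberField Filter Topology

/-- if the values at elements of a locally finite set come arbitrarily close to `z`, then `z` is a
value -/
theorem closed_of_finite' {X G : Type} [Fintype G] (f : X → G → ℂ)
    (hfin : ∀ b : ℝ, {x | ∀ g, ‖f x g‖ ≤ b}.Finite) (z : G → ℂ)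
    (h : ∀ δ : ℝ, 0 < δ → ∃ x, ∀ g, ‖f x g - z g‖ < δ) :
    ∃ x, ∀ g, f x g = z g := by
  classical
  set b : ℝ := 1 + ∑ g, ‖z g‖ with hb
  set F : Set X := {x | ∀ g, ‖f x g‖ ≤ b} with hF
  have hFf : F.Finite := hfin b
  have hmem : ∀ δ : ℝ, 0 < δ → δ ≤ 1 → ∃ x ∈ F, ∀ g, ‖f x g - z g‖ < δ := by
    intro δ hδ hδ1
    obtain ⟨x, hx1⟩ := h δ hδ
    refine ⟨x, fun g => ?_, hx1⟩
    have h1 : ‖f x g‖ ≤ ‖f x g - z g‖ + ‖z g‖ := by
      have := norm_add_le (f x g - z g) (z g)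
      rwa [sub_add_cancel] at this
    have h2 : ‖z g‖ ≤ ∑ g, ‖z g‖ :=
      Finset.single_le_sum (f := fun g => ‖z g‖) (fun g _ => norm_nonneg _) (Finset.mem_univ g)
    have h3 := hx1 g
    rw [hb]
    linarith
  by_contra hcon
  push Not at hcon
  have hne : F.Nonempty := by
    obtain ⟨x, hx, -⟩ := hmem 1 one_pos le_rfl
    exact ⟨x, hx⟩
  set d : X → ℝ := fun x => ∑ g, ‖f x g - z g‖ with hd
  obtain ⟨x₀, hx₀, hmin⟩ := Set.exists_min_image F d hFf hne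
  have hpos : 0 < d x₀ := by
    obtain ⟨g, hg⟩ := hcon x₀
    refine Finset.sum_pos' (fun g _ => norm_nonneg _) ⟨g, Finset.mem_univ g, ?_⟩
    rw [norm_pos_iff, sub_ne_zero]
    exact hg
  set n : ℝ := (Fintype.card G : ℝ) + 1 with hn
  have hn0 : 0 < n := by positivity
  obtain ⟨x, hx, hx1⟩ := hmem (min 1 (d x₀ / n)) (by positivity) (min_le_left _ _)
  have h4 : d x ≤ (Fintype.card G : ℝ) * (d x₀ / n) := by
    rw [hd]
    beta_reduce
    calc ∑ g, ‖f x g - z g‖ ≤ ∑ _g : G, d x₀ / n :=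
          Finset.sum_le_sum fun g _ => (hx1 g).le.trans (min_le_right _ _)
      _ = (Fintype.card G : ℝ) * (d x₀ / n) := by
          rw [Finset.sum_const, Finset.card_univ, nsmul_eq_mul]
  have h5 : (Fintype.card G : ℝ) * (d x₀ / n) < d x₀ := by
    rw [mul_div_assoc', div_lt_iff₀ hn0]
    rw [hn]
    nlinarith
  exact absurd (hmin x hx) (by linarith)

theorem integers_finite (E : Type) [Field E] [NumberField E] {c : (E →+* ℂ) → ℂ}
    (hc : ∀ i, c i ≠ 0) (b : ℝ) :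
    {a : 𝓞 E | ∀ i : E →+* ℂ, ‖i (a : E) * c i‖ ≤ b}.Finite := by
  classical
  set R : ℝ := ∑ i : E →+* ℂ, |b| / ‖c i‖ with hR
  have hfin := Embeddings.finite_of_norm_le E ℂ R
  refine Set.Finite.of_finite_image (f := fun a : 𝓞 E => (a : E)) (hfin.subset ?_) ?_
  · rintro _ ⟨a, ha, rfl⟩
    refine ⟨RingOfIntegers.isIntegral_coe _, fun i => ?_⟩
    have h1 := ha i
    have h2 : 0 < ‖c i‖ := norm_pos_iff.2 (hc i)
    rw [norm_mul] at h1
    have h3 : ‖i (a : E)‖ ≤ |b| / ‖c i‖ := by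
      rw [le_div_iff₀ h2]
      exact h1.trans (le_abs_self b)
    refine h3.trans ?_
    exact Finset.single_le_sum (f := fun i : E →+* ℂ => |b| / ‖c i‖)
      (fun i _ => by positivity) (Finset.mem_univ i)
  · intro a _ b' _ h
    exact RingOfIntegers.ext h

/-- `Γ_ℂ(s) = 2 (2π)^{-s} Γ(s)` -/
noncomputable def gC (s : ℂ) : ℂ := 2 * (2 * (Real.pi : ℂ)) ^ (-s) * Complex.Gamma s

theorem gC_ratio {a : ℤ} (ha : 0 < a) :
    gC ((a : ℂ) + 1) ≠ 0 ∧ gC (a : ℂ) ≠ 0 ∧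
      gC (a : ℂ) / gC ((a : ℂ) + 1) = 2 * Real.pi / a := by
  have hpi : (2 * (Real.pi : ℂ)) ≠ 0 := by
    have : (Real.pi : ℂ) ≠ 0 := by exact_mod_cast Real.pi_ne_zero
    simp [this]
  have ha0 : (a : ℂ) ≠ 0 := by exact_mod_cast ha.ne'
  have hre : 0 < ((a : ℂ)).re := by
    rw [Complex.intCast_re]
    exact_mod_cast ha
  have hG : Complex.Gamma (a : ℂ) ≠ 0 := Complex.Gamma_ne_zero_of_re_pos hre
  have hG1 : Complex.Gamma ((a : ℂ) + 1) = a * Complex.Gamma a := Complex.Gamma_add_one _ ha0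
  have hp1 : (2 * (Real.pi : ℂ)) ^ (-(a : ℂ)) ≠ 0 := by
    rw [Complex.cpow_def_of_ne_zero hpi]
    exact Complex.exp_ne_zero _
  have hp2 : (2 * (Real.pi : ℂ)) ^ (-((a : ℂ) + 1)) =
      (2 * (Real.pi : ℂ)) ^ (-(a : ℂ)) * (2 * (Real.pi : ℂ))⁻¹ := by
    rw [neg_add, Complex.cpow_add _ _ hpi, Complex.cpow_neg_one]
  have h1 : gC (a : ℂ) ≠ 0 := by
    unfold gC
    exact mul_ne_zero (mul_ne_zero two_ne_zero hp1) hG
  have h2 : gC ((a : ℂ) + 1) ≠ 0 := by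
    unfold gC
    rw [hG1, hp2]
    exact mul_ne_zero (mul_ne_zero two_ne_zero (mul_ne_zero hp1 (inv_ne_zero hpi)))
      (mul_ne_zero ha0 hG)
  refine ⟨h2, h1, ?_⟩
  rw [div_eq_iff h2]
  unfold gC
  rw [hG1, hp2]
  field_simp

end Pool.Agent.TH652.CX
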