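import Pool.Agent.TH652.CX.Gen
import Pool.Agent.TH652.CX.Lat
import Pool.Agent.TH652.COL.NF

/-! Values of `L`-functions with coefficients in a number field. -/

set_option autoImplicit false

namespace Pool.Agent.TH652.CX

open Filter Topology Polynomial NumberField IsDedekindDomain
open Pool.Agent.TH652.COL

theorem cdata_nv {F : Type} [Field F] [NumberField F]
    {Q : HeightOneSpectrum (𝓞 F) → ℂ[X]} {n : ℕ} {β : ℝ} (h0 : ∀ v, (Q v).coeff 0 = 1)
    (h1 : ∀ v, (Q v).natDegree ≤ n) (h2 : ∀ v, ∀ ρ : ℂ, (Q v).IsRoot ρ → nv v ^ (-β) ≤ ‖ρ‖) :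
    CData nv Q 1 β n where
  two_le := two_le_nv
  δ_nonneg := zero_le_one
  sum := fun σ hσ => Pool.Agent.H921R2.TatePole.nm_summable hσ
  const := h0
  deg := h1
  root := h2

/-- quotients of exponentials -/
theorem ratio_law {a b : ℝ → ℂ} {u w : ℂ} (hw : w ≠ 0)
    (ha : (fun T : ℝ => Complex.exp (a T) - u) =O[atTop] (fun T : ℝ => 1 / T))
    (hb : (fun T : ℝ => Complex.exp (b T) - w) =O[atTop] (fun T : ℝ => 1 / T)) :
    (fun T : ℝ => Complex.exp (a T - b T) - u / w) =O[atTop] (fun T : ℝ => 1 / T) := by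
  have h0 : Tendsto (fun T : ℝ => Complex.exp (b T)) atTop (𝓝 w) := by
    have h1 := (hb.trans_tendsto inv_to_zero).add_const w
    rw [zero_add] at h1
    refine h1.congr fun T => ?_
    ring
  have h1 : (fun T : ℝ => (Complex.exp (b T))⁻¹ * w⁻¹) =O[atTop] (fun _ : ℝ => (1 : ℝ)) :=
    ((h0.inv₀ hw).mul_const w⁻¹).isBigO_one ℝ
  have h2 : (fun T : ℝ => w * (Complex.exp (a T) - u) - u * (Complex.exp (b T) - w)) =O[atTop]
      (fun T : ℝ => 1 / T) := (ha.const_mul_left w).sub (hb.const_mul_left u)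
  have h3 := h1.mul h2
  simp only [one_mul] at h3
  refine h3.congr_left fun T => ?_
  rw [Complex.exp_sub]
  have h4 := Complex.exp_ne_zero (b T)
  field_simp
  ring

/-- integral multiples -/
theorem exists_mult (E : Type) [Field E] [NumberField E] (x : E) :
    ∃ N : ℕ, 0 < N ∧ ∃ a : 𝓞 E, (N : E) * x = (a : E) := by
  obtain ⟨y, hy, h⟩ := exists_integral_multiples ℤ ℚ ({x} : Finset E)
  have h1 : IsIntegral ℤ (y • x) := h x (Finset.mem_singleton_self x)
  have h2 : IsIntegral ℤ (((y * y).toNat : E) * x) := by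
    have h3 : (((y * y).toNat : ℤ)) = y * y := Int.toNat_of_nonneg (mul_self_nonneg y)
    have h4 : (((y * y).toNat : E)) = (y : E) * (y : E) := by
      have : (((y * y).toNat : ℤ) : E) = ((y * y : ℤ) : E) := by rw [h3]
      push_cast at this
      exact this
    rw [h4, mul_assoc]
    have h5 : (y : E) * x = y • x := by rw [zsmul_eq_mul]
    rw [h5]
    exact (isIntegral_algebraMap (R := ℤ) (A := E) (x := y)).mul h1
  refine ⟨(y * y).toNat, ?_, ⟨_, h2⟩, rfl⟩
  have h3 : 0 < y * y := mul_self_pos.2 hy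
  omega

end Pool.Agent.TH652.CX
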