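import Pool.Agent.TH652.CX.NFab
import Pool.Agent.TH652.CX.GenNF

/-! Values at a real point of all abelian twists, in the group algebra. -/

set_option autoImplicit false

namespace Pool.Agent.TH652.CX

open NumberField IsDedekindDomain Filter Topology Polynomial
open Pool.Agent.TH652.COL Pool.Agent.TH652.ART
open Pool.Agent.W187.UR hiding excess

section
variable {G : Type} [Group G] [Fintype G]

/-- the coefficient at `g` of `u · exp (∑ c_h [h])` in the group algebra -/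
noncomputable def uexp (u : MonoidAlgebra ℂ G) (c : G → ℂ) (g : G) : ℂ :=
  ∑' n : ℕ, (u * (∑ h, MonoidAlgebra.single h (c h) : MonoidAlgebra ℂ G) ^ n).coeff g /
    (n.factorial : ℂ)

variable [Fintype (G →* ℂˣ)]

theorem uexp_eq (hab : ∀ a b : G, a * b = b * a) (u : MonoidAlgebra ℂ G) (c : G → ℂ) (g : G) :
    uexp u c g = (Nat.card G : ℂ)⁻¹ * ∑ χ : G →* ℂˣ, (((χ g)⁻¹ : ℂˣ) : ℂ) *
      (ev χ u * Complex.exp (∑ h, ((χ h : ℂˣ) : ℂ) * c h)) := by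
  unfold uexp
  have h1 : ∀ χ : G →* ℂˣ, HasSum (fun n : ℕ => (((χ g)⁻¹ : ℂˣ) : ℂ) * (ev χ u *
      ((∑ h, ((χ h : ℂˣ) : ℂ) * c h) ^ n / (n.factorial : ℂ))))
      ((((χ g)⁻¹ : ℂˣ) : ℂ) * (ev χ u * Complex.exp (∑ h, ((χ h : ℂˣ) : ℂ) * c h))) := by
    intro χ
    rw [Complex.exp_eq_exp_ℂ]
    have h0 : HasSum (fun n : ℕ => (∑ h, ((χ h : ℂˣ) : ℂ) * c h) ^ n / (n.factorial : ℂ))
        (NormedSpace.exp (∑ h, ((χ h : ℂˣ) : ℂ) * c h)) :=
      NormedSpace.expSeries_div_hasSum_exp (∑ h, ((χ h : ℂˣ) : ℂ) * c h)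
    exact HasSum.mul_left _ (HasSum.mul_left _ h0)
  have h2 := (hasSum_sum (s := Finset.univ) fun χ (_ : χ ∈ Finset.univ) => h1 χ).mul_left
    ((Nat.card G : ℂ)⁻¹)
  refine (h2.congr_fun fun n => ?_).tsum_eq
  rw [fourier hab, mul_div_assoc, Finset.sum_div]
  congr 1
  refine Finset.sum_congr rfl fun χ _ => ?_
  rw [map_mul, map_pow, map_sum, mul_div_assoc, mul_div_assoc]
  congr 4
  refine Finset.sum_congr rfl fun h _ => ?_
  rw [ev_single, mul_comm]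

end

variable {P : Type} {q : P → ℝ} {B : P → ℝ[X]} {δ β : ℝ} {N : ℕ} {G : Type} [Group G] [Fintype G]
  [Fintype (G →* ℂˣ)]

/-- the twist of a real polynomial by a scalar -/
theorem tw_scalar (b : ℝ[X]) (hb : b.coeff 0 = 1) (a z : ℂ) :
    tw b (a • (1 : Module.End ℂ ℂ)) z = (b.map (algebraMap ℝ ℂ)).eval (a * z) := by
  rw [eval_eq_prod _ (by rw [Polynomial.coeff_map, hb]; simp)]
  unfold tw
  refine congrArg Multiset.prod (Multiset.map_congr rfl fun ρ _ => ?_)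
  have h1 : (1 - (ρ⁻¹ * z) • a • (1 : Module.End ℂ ℂ)) =
      (1 - ρ⁻¹ * (a * z)) • (1 : Module.End ℂ ℂ) := by
    rw [sub_smul, one_smul, smul_smul]
    congr 2
    ring
  rw [h1, LinearMap.det_smul, Module.finrank_self, pow_one, map_one, mul_one]

/-- **the values of all twists from the primes** -/
theorem ring_law [Countable P] (hab : ∀ a b : G, a * b = b * a) (E : LData q B δ β N)
    (hfin : ∀ R : ℝ, {v | q v ≤ R}.Finite) (Fr : P → G) {L : (G →* ℂˣ) → ℂ → ℂ} {s₀ σ₁ : ℝ}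
    (hmer : ∀ χ, ∀ x : ℝ, s₀ ≤ x → MeromorphicAt (L χ) (x : ℂ))
    (hL : ∀ χ, ∀ s : ℂ, σ₁ < s.re → L χ s =
      ∏' v, (((B v).map (algebraMap ℝ ℂ)).eval (((χ (Fr v) : ℂˣ) : ℂ) * (q v : ℂ) ^ (-s)))⁻¹)
    (han : ∀ χ, AnalyticAt ℂ (L χ) (s₀ : ℂ))
    {γ : ℝ} (hγ : Real.pi / 2 < γ) {A : ℝ} (hA : 0 < A) (hA1 : δ + β - s₀ < A)
    (u : MonoidAlgebra ℂ G) (g : G) :
    (fun T : ℝ => uexp u (fun h =>
        -∑ᶠ x ∈ cut q A T, (iw Fr h x : ℂ) * lterm q B s₀ γ T x) g -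
      (Nat.card G : ℂ)⁻¹ * ∑ χ : G →* ℂˣ, (((χ g)⁻¹ : ℂˣ) : ℂ) * (ev χ u * L χ (s₀ : ℂ)))
      =O[atTop] (fun T : ℝ => 1 / T) := by
  have key : ∀ χ : G →* ℂˣ, (fun T : ℝ => Complex.exp (∑ h, ((χ h : ℂˣ) : ℂ) *
        -∑ᶠ x ∈ cut q A T, (iw Fr h x : ℂ) * lterm q B s₀ γ T x) - L χ (s₀ : ℂ))
      =O[atTop] (fun T : ℝ => 1 / T) := by
    intro χ
    obtain ⟨m, r, hm, hr, hlaw⟩ := chi_law E hfin Fr χ (F := L χ) (s₀ := s₀)
      (σ₁ := max σ₁ (δ + β)) (hmer χ) fun s hs => by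
        rw [hL χ s (lt_of_le_of_lt (le_max_left _ _) hs),
          ← chi_prod E Fr χ (lt_of_le_of_lt (le_max_right _ _) hs)]
        refine tprod_congr fun v => ?_
        rw [tw_scalar _ (E.const v)]
    obtain ⟨hm0, hval⟩ := value_trailing (han χ) hm
    have h1 := hlaw γ hγ A hA hA1
    have h2 : (fun T : ℝ => ((∑ g, (χ g : ℂ) *
        ∑ᶠ x ∈ cut q A T, (iw Fr g x : ℂ) * lterm q B s₀ γ T x) + (Real.log T - Lam γ)) -
        (((m + 1 : ℤ) : ℂ) * (Real.log T - Lam γ) - r)) =O[atTop] (fun T : ℝ => 1 / T) := by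
      refine h1.congr_left fun T => ?_
      push_cast
      ring
    have h3 := exp_law (by omega : 1 ≤ m + 1) h2
    rw [hval, ← hr]
    refine h3.congr' ?_ EventuallyEq.rfl
    filter_upwards [eventually_gt_atTop 0] with T hT
    have h4 : (T : ℂ) = Complex.exp (Real.log T : ℝ) := by
      rw [← Complex.ofReal_exp, Real.exp_log hT]
    nth_rewrite 1 [h4]
    rw [← Complex.exp_add, ← Complex.exp_add]
    have h5 : (m + 1 = 1) ↔ m = 0 := by omega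
    simp only [h5, mul_neg, Finset.sum_neg_distrib]
    congr 2
    ring
  have h5 := (Asymptotics.IsBigO.sum (s := Finset.univ) fun χ (_ : χ ∈ Finset.univ) =>
    (key χ).const_mul_left ((((χ g)⁻¹ : ℂˣ) : ℂ) * ev χ u)).const_mul_left ((Nat.card G : ℂ)⁻¹)
  refine h5.congr_left fun T => ?_
  rw [uexp_eq hab, Finset.sum_apply, ← mul_sub, ← Finset.sum_sub_distrib]
  congr 1
  refine Finset.sum_congr rfl fun χ _ => ?_
  ring

end Pool.Agent.TH652.CX
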