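import Pool.Agent.TH652.ART.Law
import Pool.Agent.TH652.CX.Branch

/-! The law for series with complex coefficients. -/

set_option autoImplicit false

namespace Pool.Agent.TH652.CX

open Filter Topology Set Polynomial ComplexConjugate
open Pool.Agent.W189.ML Pool.Agent.W189.LC
open Pool.Agent.W187.UR hiding excess
open Pool.Agent.TH652.COL Pool.Agent.TH652.ART

variable {P : Type} {q : P → ℝ} {B : P → ℝ[X]} {δ β : ℝ} {N : ℕ}

/-- the law, with the sign of the leading coefficient -/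
theorem wlaw' [Countable P] (E : LData q B δ β N) {w : P × ℕ → ℝ} {W : ℝ}
    (hw : ∀ x, |w x| ≤ W) {F : ℂ → ℂ} {s₀ σ₁ : ℝ}
    (hmer : ∀ x : ℝ, s₀ ≤ x → MeromorphicAt F (x : ℂ))
    (hF : ∀ s : ℂ, σ₁ < s.re → F s = Complex.exp (wser q B w s)) {γ : ℝ} (hγ : Real.pi / 2 < γ) :
    {σ : ℝ | s₀ ≤ σ ∧ meromorphicOrderAt F (σ : ℂ) ≠ 0}.Finite ∧
    ∃ (m : ℤ) (l : ℝ), meromorphicOrderAt F (s₀ : ℂ) = m ∧
      meromorphicTrailingCoeffAt F (s₀ : ℂ) = l ∧ l ≠ 0 ∧
      Complex.exp ((Real.log |l| : ℂ) - Real.pi * excess F s₀ * Complex.I) = l ∧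
      (fun T : ℝ => wsum q B w s₀ γ T - (m * (Real.log T - Lam γ) - Real.log |l| +
        Real.pi * excess F s₀ * Complex.I)) =O[atTop] (fun T : ℝ => 1 / T) := by
  set D : ℝ := |β + δ - s₀| + |σ₁ - s₀| + 1 with hDdef
  have hD0 : 0 < D := by positivity
  have hD1 : β + δ ≤ s₀ + D := by
    have h1 := le_abs_self (β + δ - s₀)
    have h2 := abs_nonneg (σ₁ - s₀)
    rw [hDdef]
    linarith
  have hD2 : σ₁ ≤ s₀ + D := by
    have h1 := le_abs_self (σ₁ - s₀)
    have h2 := abs_nonneg (β + δ - s₀)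
    rw [hDdef]
    linarith
  have M := wmdata E hw hD0 hD1 hD2 hmer hF
  have hright : ∀ σ : ℝ, s₀ + D < σ → meromorphicOrderAt F (σ : ℂ) = 0 := by
    intro σ hσ
    have h1 := M.order_right (w := (((σ - s₀) / D : ℝ) : ℂ)) (by
      rw [Complex.ofReal_re, one_lt_div hD0]
      linarith)
    rw [order_scale F hD0.ne'] at h1
    have h2 : s₀ + D * ((σ - s₀) / D) = σ := by
      field_simp
      ring
    rwa [h2] at h1
  have hfin : {σ : ℝ | s₀ ≤ σ ∧ meromorphicOrderAt F (σ : ℂ) ≠ 0}.Finite := by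
    refine (M.finite_zeros.image fun x : ℝ => s₀ + D * x).subset ?_
    rintro σ ⟨h1, h2⟩
    refine ⟨(σ - s₀) / D, ⟨⟨div_nonneg (by linarith) hD0.le, ?_⟩, ?_⟩, ?_⟩
    · rw [div_le_iff₀ hD0]
      by_contra h3
      push Not at h3
      exact h2 (hright σ (by linarith))
    · rw [order_scale F hD0.ne']
      have h3 : s₀ + D * ((σ - s₀) / D) = σ := by
        field_simp
        ring
      rwa [h3]
    · simp only
      field_simp
      ring
  refine ⟨hfin, ?_⟩
  have htop := M.order_ne_top (x := 0) ⟨le_rfl, by norm_num⟩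
  rw [order_scale F hD0.ne', mul_zero, add_zero] at htop
  obtain ⟨m, hm⟩ := WithTop.ne_top_iff_exists.1 htop
  have hm0 : meromorphicOrderAt (fun w : ℂ => F (s₀ + D * w)) 0 = m := by
    have := order_scale F (s₀ := s₀) hD0.ne' 0
    rw [mul_zero, add_zero, Complex.ofReal_zero] at this
    rw [this]
    exact hm.symm
  obtain ⟨r₁, C, T₀, hr, hi, hC, hT₀, h⟩ := mdata_rot M hm0 hγ
  rw [coeff_scale hD0.ne' (hmer s₀ le_rfl) hm.symm] at hr
  rw [excess_eq hD0 hright] at hi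
  have hDc : (D : ℂ) ≠ 0 := by exact_mod_cast hD0.ne'
  -- remove the scale
  set r₀ : ℂ := r₁ - m * Real.log D with hr₀def
  have hpow : (D : ℂ) ^ m = Complex.exp (m * Real.log D) := by
    rw [Complex.exp_int_mul, ← Complex.ofReal_exp, Real.exp_log hD0]
  have hr' : Complex.exp r₀ = meromorphicTrailingCoeffAt F (s₀ : ℂ) := by
    rw [hr₀def, Complex.exp_sub, hr, ← hpow]
    exact mul_div_cancel_left₀ _ (zpow_ne_zero _ hDc)
  have hi' : r₀.im = -Real.pi * excess F s₀ := by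
    rw [hr₀def, Complex.sub_im, hi]
    have : ((m : ℂ) * Real.log D).im = 0 := by
      have h1 : ((m : ℂ) * Real.log D) = ((m * Real.log D : ℝ) : ℂ) := by push_cast; rfl
      rw [h1, Complex.ofReal_im]
    rw [this]
    ring
  set l : ℂ := meromorphicTrailingCoeffAt F (s₀ : ℂ) with hl
  have hl0 : l ≠ 0 := by rw [← hr']; exact Complex.exp_ne_zero _
  have hlr : l = (((-1 : ℝ) ^ (excess F s₀) * Real.exp r₀.re : ℝ) : ℂ) := by
    have h1 : r₀ = (r₀.re : ℂ) + (excess F s₀ : ℂ) * (-(Real.pi * Complex.I)) := by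
      apply Complex.ext
      · simp
      · rw [hi']; simp; ring
    rw [← hr']
    nth_rewrite 1 [h1]
    rw [Complex.exp_add, Complex.exp_int_mul, Complex.exp_neg, Complex.exp_pi_mul_I]
    push_cast
    norm_num
    ring
  have hlre : l = ((l.re : ℝ) : ℂ) := by
    rw [hlr, Complex.ofReal_re]
  have hlabs : Real.log |l.re| = r₀.re := by
    have h1 : |l.re| = Real.exp r₀.re := by
      rw [hlr, Complex.ofReal_re, abs_mul, Real.abs_exp]
      have : |(-1 : ℝ) ^ (excess F s₀)| = 1 := by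
        rw [abs_zpow]; simp
      rw [this, one_mul]
    rw [h1, Real.log_exp]
  have hlre0 : l.re ≠ 0 := by
    intro h1
    rw [h1, Complex.ofReal_zero] at hlre
    exact hl0 hlre
  have hr₀ : -r₀ = -(Real.log |l.re| : ℂ) + Real.pi * excess F s₀ * Complex.I := by
    rw [hlabs]
    apply Complex.ext
    · simp
    · rw [Complex.neg_im, hi']; simp
  have hO : (fun T : ℝ => wsum q B w s₀ γ T - (m * (Real.log T - Lam γ) - r₀)) =O[atTop]
      (fun T : ℝ => 1 / T) := by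
    refine Asymptotics.IsBigO.of_bound (C / D) ?_
    filter_upwards [eventually_ge_atTop (T₀ / D), eventually_gt_atTop 0] with T hT hT1
    have hT2 : T₀ ≤ D * T := by
      rw [div_le_iff₀ hD0] at hT
      linarith [mul_comm D T]
    have h5 := h (D * T) hT2
    rw [wsum_eq w hD0, Real.norm_eq_abs, abs_of_pos (by positivity : 0 < 1 / T)]
    have h6 : (m : ℂ) * (Real.log (D * T) - Lam γ) - r₁ = m * (Real.log T - Lam γ) - r₀ := by
      rw [Real.log_mul hD0.ne' hT1.ne', hr₀def]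
      push_cast
      ring
    rw [h6] at h5
    refine h5.trans (le_of_eq ?_)
    field_simp
  refine ⟨m, l.re, hm.symm, hlre, hlre0, ?_, ?_⟩
  · have h9 : (Real.log |l.re| : ℂ) - Real.pi * excess F s₀ * Complex.I = r₀ := by
      linear_combination hr₀
    rw [h9, hr', ← hlre]
  refine hO.congr_left fun T => ?_
  linear_combination (-1 : ℂ) * hr₀

theorem lt_eq (E : LData q B δ β N) (s : ℂ) (x : P × ℕ) :
    lt q B s x = ((cq q B 0 x : ℝ) : ℂ) * Complex.exp (-(s * fq q 1 x)) := by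
  have h2 := wcoef_eq E (fun _ => 1) 0 1 s x
  simp only [mul_one, Complex.ofReal_one, one_mul, Complex.ofReal_zero, zero_add] at h2
  rw [h2]
  rfl

theorem cser_analytic (E : LData q B δ β N) {c : P × ℕ → ℂ} {W : ℝ} (hc : ∀ x, ‖c x‖ ≤ W) {s : ℂ}
    (hs : δ + β < s.re) : AnalyticAt ℂ (fun s => ∑' x, c x * lt q B s x) s := by
  set σ : ℝ := (δ + β + s.re) / 2 with hσ
  have hσ1 : δ + β < σ := by rw [hσ]; linarith
  have hσw : σ < s.re := by rw [hσ]; linarith
  have hopen : IsOpen {z : ℂ | σ < z.re} := isOpen_lt continuous_const Complex.continuous_re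
  have hsum : Summable fun x => W * (|cq q B 0 x| * Real.exp (-(σ * fq q 1 x))) :=
    (E.summable (by linarith)).mul_left W
  have h1 : DifferentiableOn ℂ (fun s => ∑' x, c x * lt q B s x) {z : ℂ | σ < z.re} := by
    refine Complex.differentiableOn_tsum_of_summable_norm hsum (fun x => ?_) hopen (fun x z hz => ?_)
    · refine Differentiable.differentiableOn ?_
      simp only [lt_eq E]
      fun_prop
    · rw [lt_eq E, norm_mul, norm_mul, Complex.norm_real, Real.norm_eq_abs, Complex.norm_exp]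
      refine mul_le_mul (hc x) ?_ (by positivity) ((norm_nonneg _).trans (hc x))
      refine mul_le_mul_of_nonneg_left ?_ (abs_nonneg _)
      apply Real.exp_le_exp.2
      have h2 : (-(z * fq q 1 x)).re = -(z.re * fq q 1 x) := by
        rw [Complex.neg_re, Complex.re_mul_ofReal]
      rw [h2]
      have hz' : σ < z.re := hz
      have := E.fq_nonneg zero_le_one x
      nlinarith
  exact h1.analyticAt (hopen.mem_nhds hσw)

/-- the rotated sum with complex coefficients -/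
noncomputable def csum (q : P → ℝ) (B : P → ℝ[X]) (c : P × ℕ → ℂ) (s₀ γ T : ℝ) : ℂ :=
  ∑' x, c x * lterm q B s₀ γ T x

theorem csummable (E : LData q B δ β N) {c : P × ℕ → ℂ} {W : ℝ} (hc : ∀ x, ‖c x‖ ≤ W) (s₀ γ : ℝ)
    {T : ℝ} (hT : 0 < T) : Summable fun x => c x * lterm q B s₀ γ T x := by
  refine Summable.of_norm_bounded ((E.lsummable s₀ γ hT).mul_left W) fun x => ?_
  rw [norm_mul]
  exact mul_le_mul_of_nonneg_right (hc x) (norm_nonneg _)

theorem split_re_im (z : ℂ) : z = (z.re : ℂ) + Complex.I * (z.im : ℂ) := by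
  rw [mul_comm]
  exact (Complex.re_add_im z).symm

theorem order_ne_top' {F : ℂ → ℂ} {s₀ σ₂ : ℝ}
    (hmer : ∀ x : ℝ, s₀ ≤ x → MeromorphicAt F (x : ℂ))
    (hne : ∀ s : ℂ, σ₂ < s.re → AnalyticAt ℂ F s ∧ F s ≠ 0) {x : ℝ} (hx : s₀ ≤ x) :
    meromorphicOrderAt F (x : ℂ) ≠ ⊤ := by
  set U : Set ℂ := (fun x : ℝ => (x : ℂ)) '' Ici s₀ with hU
  have hm : MeromorphicOn F U := by
    rintro _ ⟨y, hy, rfl⟩
    exact hmer y hy
  have hc : IsPreconnected U :=
    isPreconnected_Ici.image _ (Continuous.continuousOn (by fun_prop))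
  have h1 : s₀ ≤ max s₀ σ₂ + 1 := by linarith [le_max_left s₀ σ₂]
  have h2 : σ₂ < ((max s₀ σ₂ + 1 : ℝ) : ℂ).re := by
    rw [Complex.ofReal_re]
    linarith [le_max_right s₀ σ₂]
  refine hm.meromorphicOrderAt_ne_top_of_isPreconnected hc
    (x := ((max s₀ σ₂ + 1 : ℝ) : ℂ)) ⟨_, h1, rfl⟩ ⟨x, hx, rfl⟩ ?_
  obtain ⟨h3, h4⟩ := hne _ h2
  rw [h3.meromorphicOrderAt_eq, h3.analyticOrderAt_eq_zero.2 h4]
  exact WithTop.zero_ne_top

/-- **the law for complex coefficients** -/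
theorem claw [Countable P] (E : LData q B δ β N) {c : P × ℕ → ℂ} {W : ℝ} (hc : ∀ x, ‖c x‖ ≤ W)
    {F : ℂ → ℂ} {s₀ σ₁ : ℝ} (hmer : ∀ x : ℝ, s₀ ≤ x → MeromorphicAt F (x : ℂ))
    (hF : ∀ s : ℂ, σ₁ < s.re → F s = Complex.exp (∑' x, c x * lt q B s x)) :
    ∃ (m : ℤ) (r : ℂ), meromorphicOrderAt F (s₀ : ℂ) = m ∧
      Complex.exp r = meromorphicTrailingCoeffAt F (s₀ : ℂ) ∧
      ∀ γ : ℝ, Real.pi / 2 < γ →
      (fun T : ℝ => csum q B c s₀ γ T - (m * (Real.log T - Lam γ) - r)) =O[atTop]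
        (fun T : ℝ => 1 / T) := by
  set σ₂ : ℝ := max σ₁ (δ + β) with hσ₂
  have hs1 : ∀ {s : ℂ}, σ₂ < s.re → σ₁ < s.re := fun h => lt_of_le_of_lt (le_max_left _ _) h
  have hs2 : ∀ {s : ℂ}, σ₂ < s.re → δ + β < s.re := fun h => lt_of_le_of_lt (le_max_right _ _) h
  set a : P × ℕ → ℝ := fun x => (c x).re with ha
  set b : P × ℕ → ℝ := fun x => (c x).im with hb
  have hac : ∀ x, |a x| ≤ W := fun x => (Complex.abs_re_le_norm _).trans (hc x)
  have hbc : ∀ x, |b x| ≤ W := fun x => (Complex.abs_im_le_norm _).trans (hc x)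
  have hac' : ∀ x, ‖((a x : ℝ) : ℂ)‖ ≤ W := fun x => by
    rw [Complex.norm_real, Real.norm_eq_abs]; exact hac x
  have hbc' : ∀ x, ‖((b x : ℝ) : ℂ)‖ ≤ W := fun x => by
    rw [Complex.norm_real, Real.norm_eq_abs]; exact hbc x
  have hwa : ∀ s, wser q B a s = ∑' x, ((a x : ℝ) : ℂ) * lt q B s x := fun s => rfl
  have hwb : ∀ s, wser q B b s = ∑' x, ((b x : ℝ) : ℂ) * lt q B s x := fun s => rfl
  have hser : ∀ s : ℂ, σ₂ < s.re →
      ∑' x, c x * lt q B s x = wser q B a s + Complex.I * wser q B b s := by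
    intro s hs
    have s1 := tlt_summable E (c := fun x => ((a x : ℝ) : ℂ)) hac' (hs2 hs)
    have s2 := tlt_summable E (c := fun x => ((b x : ℝ) : ℂ)) hbc' (hs2 hs)
    rw [hwa, hwb, ← tsum_mul_left, ← s1.tsum_add (s2.mul_left _)]
    refine tsum_congr fun x => ?_
    rw [← mul_assoc, ← add_mul]
    congr 1
    exact split_re_im (c x)
  have hFe : ∀ s : ℂ, σ₂ < s.re →
      F s = Complex.exp (wser q B a s + Complex.I * wser q B b s) := by
    intro s hs
    rw [hF s (hs1 hs), hser s hs]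
  have hwreal : ∀ (w : P × ℕ → ℝ) (s : ℂ), conj (wser q B w (conj s)) = wser q B w s := by
    intro w s
    have h1 : ∀ z, wser q B w z = ∑' x, ((w x : ℝ) : ℂ) * lt q B z x := fun z => rfl
    rw [h1, h1, Complex.conj_tsum]
    refine tsum_congr fun x => ?_
    rw [map_mul, conj_lt E, Complex.conj_ofReal]
  have hstF : ∀ s : ℂ, σ₂ < s.re →
      st F s = Complex.exp (wser q B a s - Complex.I * wser q B b s) := by
    intro s hs
    unfold st
    rw [hFe (conj s) (by rw [Complex.conj_re]; exact hs), ← Complex.exp_conj, map_add, map_mul,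
      hwreal, hwreal, Complex.conj_I]
    congr 1
    ring
  have hopen : IsOpen {z : ℂ | σ₂ < z.re} := isOpen_lt continuous_const Complex.continuous_re
  have hana : ∀ s : ℂ, σ₂ < s.re → AnalyticAt ℂ F s ∧ F s ≠ 0 := by
    intro s hs
    refine ⟨?_, ?_⟩
    · refine ((cser_analytic E hc (hs2 hs)).cexp).congr ?_
      filter_upwards [hopen.mem_nhds hs] with z hz
      exact (hF z (hs1 hz)).symm
    · rw [hF s (hs1 hs)]
      exact Complex.exp_ne_zero _
  have htop : ∀ x : ℝ, s₀ ≤ x → meromorphicOrderAt F (x : ℂ) ≠ ⊤ := fun x hx =>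
    order_ne_top' hmer hana hx
  -- the quotient
  set H : ℂ → ℂ := F * (st F)⁻¹ with hH
  have hHord : ∀ x : ℝ, s₀ ≤ x → MeromorphicAt H (x : ℂ) ∧ meromorphicOrderAt H (x : ℂ) = 0 := by
    intro x hx
    obtain ⟨h1, h2, -⟩ := st_order (hmer x hx)
    refine ⟨(hmer x hx).mul h1.inv, ?_⟩
    rw [hH, meromorphicOrderAt_mul (hmer x hx) h1.inv, meromorphicOrderAt_inv, h2]
    obtain ⟨k, hk⟩ := WithTop.ne_top_iff_exists.1 (htop x hx)
    rw [← hk]
    have h3 : ((k : ℤ) : WithTop ℤ) + -((k : ℤ) : WithTop ℤ) = ((k + -k : ℤ) : WithTop ℤ) := rfl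
    rw [h3, add_neg_cancel]
    rfl
  have hu : ∀ s : ℂ, σ₂ < s.re → AnalyticAt ℂ (fun s => 2 * Complex.I * wser q B b s) s := by
    intro s hs
    exact analyticAt_const.mul (cser_analytic E (c := fun x => ((b x : ℝ) : ℂ)) hbc' (hs2 hs))
  have hHu : ∀ s : ℂ, σ₂ < s.re → H s = Complex.exp (2 * Complex.I * wser q B b s) := by
    intro s hs
    rw [hH, Pi.mul_apply, Pi.inv_apply, hFe s hs, hstF s hs, ← Complex.exp_neg, ← Complex.exp_add]
    congr 1
    ring
  obtain ⟨v, hv1, hv2, -⟩ := branch_ext hHord hu hHu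
  set bt : ℂ → ℂ := fun s => v s / (2 * Complex.I) with hbt
  have h2I : (2 * Complex.I : ℂ) ≠ 0 := by simp
  have hbta : ∀ x : ℝ, s₀ ≤ x → AnalyticAt ℂ bt (x : ℂ) := fun x hx =>
    (hv1 x hx).div analyticAt_const h2I
  have hbte : ∀ s : ℂ, σ₂ < s.re → bt s = wser q B b s := by
    intro s hs
    rw [hbt]
    simp only
    rw [hv2 s hs, mul_div_cancel_left₀ _ h2I]
  have hreal : ∀ x : ℝ, s₀ ≤ x → bt (x : ℂ) = ((bt (x : ℂ)).re : ℂ) := by
    set U : Set ℂ := (fun x : ℝ => (x : ℂ)) '' Ici s₀ with hU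
    have hc' : IsPreconnected U :=
      isPreconnected_Ici.image _ (Continuous.continuousOn (by fun_prop))
    have hf : AnalyticOnNhd ℂ bt U := by
      rintro _ ⟨y, hy, rfl⟩
      exact hbta y hy
    have hg : AnalyticOnNhd ℂ (st bt) U := by
      rintro _ ⟨y, hy, rfl⟩
      exact st_analytic (hbta y hy)
    have h1 : s₀ ≤ max s₀ σ₂ + 1 := by linarith [le_max_left s₀ σ₂]
    have h2 : σ₂ < ((max s₀ σ₂ + 1 : ℝ) : ℂ).re := by
      rw [Complex.ofReal_re]
      linarith [le_max_right s₀ σ₂]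
    have h3 : bt =ᶠ[𝓝 ((max s₀ σ₂ + 1 : ℝ) : ℂ)] st bt := by
      filter_upwards [hopen.mem_nhds h2] with s hs
      have hs' : σ₂ < s.re := hs
      unfold st
      rw [hbte s hs', hbte (conj s) (by rw [Complex.conj_re]; exact hs'), hwreal]
    have h4 := hf.eqOn_of_preconnected_of_eventuallyEq hg hc' ⟨_, h1, rfl⟩ h3
    intro x hx
    have h5 : bt (x : ℂ) = conj (bt (conj (x : ℂ))) := h4 ⟨x, hx, rfl⟩
    rw [Complex.conj_ofReal] at h5
    exact (Complex.conj_eq_iff_re.1 h5.symm).symm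
  -- the real part
  set F₁ : ℂ → ℂ := F * fun s => Complex.exp (-(Complex.I * bt s)) with hF₁
  have he1 : ∀ x : ℝ, s₀ ≤ x → AnalyticAt ℂ (fun s => Complex.exp (-(Complex.I * bt s))) (x : ℂ) :=
    fun x hx => (analyticAt_const.mul (hbta x hx)).neg.cexp
  have hmer1 : ∀ x : ℝ, s₀ ≤ x → MeromorphicAt F₁ (x : ℂ) := fun x hx =>
    (hmer x hx).mul (he1 x hx).meromorphicAt
  have hF1 : ∀ s : ℂ, σ₂ < s.re → F₁ s = Complex.exp (wser q B a s) := by
    intro s hs
    rw [hF₁, Pi.mul_apply, hFe s hs, hbte s hs, ← Complex.exp_add]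
    congr 1
    ring
  have hmer2 : ∀ x : ℝ, s₀ ≤ x → MeromorphicAt (fun s => Complex.exp (bt s)) (x : ℂ) := fun x hx =>
    (hbta x hx).cexp.meromorphicAt
  have hG2 : ∀ s : ℂ, σ₂ < s.re → Complex.exp (bt s) = Complex.exp (wser q B b s) := by
    intro s hs
    rw [hbte s hs]
  have ho2 : ∀ x : ℝ, s₀ ≤ x →
      meromorphicOrderAt (fun s => Complex.exp (bt s)) (x : ℂ) = 0 := by
    intro x hx
    have h1 : AnalyticAt ℂ (fun s => Complex.exp (bt s)) (x : ℂ) := (hbta x hx).cexp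
    rw [h1.meromorphicOrderAt_eq, h1.analyticOrderAt_eq_zero.2 (Complex.exp_ne_zero _)]
    rfl
  have hex2 : excess (fun s => Complex.exp (bt s)) s₀ = 0 := by
    unfold excess
    refine finsum_mem_eq_zero_of_forall_eq_zero fun x hx => ?_
    rw [ho2 x (le_of_lt hx)]
    rfl
  have ho1 : meromorphicOrderAt F₁ (s₀ : ℂ) = meromorphicOrderAt F (s₀ : ℂ) := by
    rw [hF₁, meromorphicOrderAt_mul (hmer s₀ le_rfl) (he1 s₀ le_rfl).meromorphicAt,
      (he1 s₀ le_rfl).meromorphicOrderAt_eq,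
      (he1 s₀ le_rfl).analyticOrderAt_eq_zero.2 (Complex.exp_ne_zero _)]
    simp
  have ht1 : meromorphicTrailingCoeffAt F₁ (s₀ : ℂ) =
      meromorphicTrailingCoeffAt F (s₀ : ℂ) * Complex.exp (-(Complex.I * bt s₀)) := by
    rw [hF₁, MeromorphicAt.meromorphicTrailingCoeffAt_mul (hmer s₀ le_rfl)
      (he1 s₀ le_rfl).meromorphicAt,
      (he1 s₀ le_rfl).meromorphicTrailingCoeffAt_of_ne_zero (Complex.exp_ne_zero _)]
  have ht2 : meromorphicTrailingCoeffAt (fun s => Complex.exp (bt s)) (s₀ : ℂ) =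
      Complex.exp (bt s₀) :=
    (hbta s₀ le_rfl).cexp.meromorphicTrailingCoeffAt_of_ne_zero (Complex.exp_ne_zero _)
  have hpi : Real.pi / 2 < Real.pi := by linarith [Real.pi_pos]
  obtain ⟨-, m, l, hm, hl, hl0, hle, -⟩ := wlaw' E hac hmer1 hF1 hpi
  have hre := hreal s₀ le_rfl
  refine ⟨m, (Real.log |l| : ℂ) - Real.pi * excess F₁ s₀ * Complex.I + Complex.I * bt s₀,
    by rw [← ho1, hm], ?_, fun γ hγ => ?_⟩
  · rw [Complex.exp_add, hle, ← hl, ht1, mul_assoc, ← Complex.exp_add]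
    simp
  · obtain ⟨-, m1, l1, hm1, hl1, -, -, hO1⟩ := wlaw' E hac hmer1 hF1 hγ
    obtain ⟨-, m2, l2, hm2, hl2, -, -, hO2⟩ := wlaw' E hbc hmer2 hG2 hγ
    have e1 : m1 = m := by
      have : (m1 : WithTop ℤ) = m := by rw [← hm1, ← hm]
      exact_mod_cast this
    have e2 : l1 = l := by
      have : (l1 : ℂ) = l := by rw [← hl1, ← hl]
      exact_mod_cast this
    have e3 : m2 = 0 := by
      have : (m2 : WithTop ℤ) = ((0 : ℤ) : WithTop ℤ) := by rw [← hm2, ho2 s₀ le_rfl]; rfl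
      exact_mod_cast this
    have e4 : Real.log |l2| = (bt s₀).re := by
      have h1 : (l2 : ℂ) = ((Real.exp (bt s₀).re : ℝ) : ℂ) := by
        rw [← hl2, ht2, Complex.ofReal_exp, ← hre]
      have h2 : l2 = Real.exp (bt s₀).re := by exact_mod_cast h1
      rw [h2, abs_of_pos (Real.exp_pos _), Real.log_exp]
    have h3 := hO1.add (hO2.const_mul_left Complex.I)
    refine h3.congr' ?_ EventuallyEq.rfl
    filter_upwards [eventually_gt_atTop 0] with T hT
    have h4 : csum q B c s₀ γ T = wsum q B a s₀ γ T + Complex.I * wsum q B b s₀ γ T := by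
      unfold csum wsum
      rw [← tsum_mul_left, ← (csummable E (c := fun x => ((a x : ℝ) : ℂ)) hac' s₀ γ hT).tsum_add
        ((csummable E (c := fun x => ((b x : ℝ) : ℂ)) hbc' s₀ γ hT).mul_left _)]
      refine tsum_congr fun x => ?_
      rw [← mul_assoc, ← add_mul]
      congr 1
      exact split_re_im (c x)
    rw [h4, e1, e2, e3, e4, hex2]
    rw [hre, Complex.ofReal_re]
    push_cast
    ring

end Pool.Agent.TH652.CX
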