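import Pool.Agent.TH652.CX.Ab
import Pool.Agent.TH652.ART.NF

/-! The derivatives at `0` of the partial zeta functions of an abelian extension of number fields. -/

set_option autoImplicit false

namespace Pool.Agent.TH652.CX

open NumberField IsDedekindDomain Filter Topology Polynomial
open Pool.Agent.TH652.COL Pool.Agent.TH652.ART
open Pool.Agent.W187.UR hiding excess

section
variable {K : Type} [Field K] [NumberField K]

open Classical in
/-- the Euler polynomials -/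
noncomputable def nB (S : Finset (HeightOneSpectrum (𝓞 K))) (v : HeightOneSpectrum (𝓞 K)) : ℝ[X] :=
  if v ∈ S then 1 else 1 - X

theorem nldata (S : Finset (HeightOneSpectrum (𝓞 K))) : LData nv (nB S) 1 0 1 where
  two_le := two_le_nv
  δ_nonneg := zero_le_one
  sum := fun σ hσ => Pool.Agent.H921R2.TatePole.nm_summable hσ
  const := fun p => by
    unfold nB
    split_ifs <;> simp
  deg := fun p => by
    unfold nB
    split_ifs
    · simp
    · refine (Polynomial.natDegree_sub_le _ _).trans ?_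
      simp
  root := fun p ρ hρ => by
    unfold nB at hρ
    split_ifs at hρ with h
    · simp [Polynomial.IsRoot.def] at hρ
    · have h1 : ρ ∈ ((1 - X : ℝ[X]).map (algebraMap ℝ ℂ)).roots := by
        refine (Polynomial.mem_roots ?_).2 hρ
        intro h0
        have := congrArg (fun f : ℂ[X] => f.coeff 0) h0
        simp at this
      rw [Pool.Agent.TH652.PR.roots_lin, Multiset.mem_singleton] at h1
      rw [h1]
      simp

end

section
variable {G : Type} [Group G] [Fintype G]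

/-- the coefficient at `g` of the exponential of `∑ c_h [h]` in the group algebra -/
noncomputable def gexp (c : G → ℂ) (g : G) : ℂ :=
  ∑' n : ℕ, ((∑ h, MonoidAlgebra.single h (c h) : MonoidAlgebra ℂ G) ^ n).coeff g /
    (n.factorial : ℂ)

/-- the character of the group algebra -/
noncomputable def ev (χ : G →* ℂˣ) : MonoidAlgebra ℂ G →ₐ[ℂ] ℂ :=
  MonoidAlgebra.lift ℂ ℂ G ((Units.coeHom ℂ).comp χ)

omit [Fintype G] in
theorem ev_single (χ : G →* ℂˣ) (h : G) (a : ℂ) :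
    ev χ (MonoidAlgebra.single h a) = a * ((χ h : ℂˣ) : ℂ) := by
  unfold ev
  rw [MonoidAlgebra.lift_single]
  rfl

variable [Fintype (G →* ℂˣ)]

open Classical in
theorem sum_chi (hab : ∀ a b : G, a * b = b * a) (a : G) :
    ∑ χ : G →* ℂˣ, ((χ a : ℂˣ) : ℂ) = if a = 1 then (Nat.card G : ℂ) else 0 := by
  let : CommGroup G := { ‹Group G› with mul_comm := hab }
  split_ifs with h
  · subst h
    simp only [map_one, Units.val_one, Finset.sum_const, Finset.card_univ, nsmul_eq_mul, mul_one]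
    have h1 := CommGroup.card_monoidHom_of_hasEnoughRootsOfUnity G ℂ
    rw [Nat.card_eq_fintype_card] at h1
    exact_mod_cast h1
  · obtain ⟨φ, hφ⟩ := CommGroup.exists_apply_ne_one_of_hasEnoughRootsOfUnity G ℂ h
    have h1 : ∑ χ : G →* ℂˣ, ((χ a : ℂˣ) : ℂ) =
        ((φ a : ℂˣ) : ℂ) * ∑ χ : G →* ℂˣ, ((χ a : ℂˣ) : ℂ) := by
      rw [Finset.mul_sum]
      refine (Fintype.sum_equiv (Equiv.mulLeft φ) _ _ fun χ => ?_).symm
      simp
    have h2 : (((φ a : ℂˣ) : ℂ) - 1) * ∑ χ : G →* ℂˣ, ((χ a : ℂˣ) : ℂ) = 0 := by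
      linear_combination (-1 : ℂ) * h1
    rcases mul_eq_zero.1 h2 with h3 | h3
    · exact absurd (Units.ext (by rw [Units.val_one]; linear_combination h3)) hφ
    · exact h3

theorem fourier (hab : ∀ a b : G, a * b = b * a) (x : MonoidAlgebra ℂ G) (g : G) :
    x.coeff g = (Nat.card G : ℂ)⁻¹ * ∑ χ : G →* ℂˣ, (((χ g)⁻¹ : ℂˣ) : ℂ) * ev χ x := by
  classical
  have hG : (Nat.card G : ℂ) ≠ 0 := by exact_mod_cast Nat.card_pos.ne'
  induction x using MonoidAlgebra.induction_linear with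
  | zero => simp
  | add x y hx hy =>
    rw [MonoidAlgebra.coeff_add, Finsupp.add_apply, hx, hy]
    simp only [map_add, mul_add, Finset.sum_add_distrib]
  | single h a =>
    have h1 : ∀ χ : G →* ℂˣ, (((χ g)⁻¹ : ℂˣ) : ℂ) * ev χ (MonoidAlgebra.single h a) =
        a * ((χ (g⁻¹ * h) : ℂˣ) : ℂ) := by
      intro χ
      rw [ev_single, map_mul, map_inv, Units.val_mul]
      ring
    simp only [h1]
    rw [← Finset.mul_sum, sum_chi hab, MonoidAlgebra.coeff_single, Finsupp.single_apply]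
    by_cases h2 : h = g
    · rw [if_pos h2, if_pos (by rw [h2, inv_mul_cancel])]
      field_simp
    · rw [if_neg h2, if_neg (fun h3 => h2 (inv_mul_eq_one.1 h3).symm)]
      simp

theorem gexp_eq (hab : ∀ a b : G, a * b = b * a) (c : G → ℂ) (g : G) :
    gexp c g = (Nat.card G : ℂ)⁻¹ * ∑ χ : G →* ℂˣ, (((χ g)⁻¹ : ℂˣ) : ℂ) *
      Complex.exp (∑ h, ((χ h : ℂˣ) : ℂ) * c h) := by
  unfold gexp
  have h1 : ∀ χ : G →* ℂˣ, HasSum (fun n : ℕ => (((χ g)⁻¹ : ℂˣ) : ℂ) *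
      ((∑ h, ((χ h : ℂˣ) : ℂ) * c h) ^ n / (n.factorial : ℂ)))
      ((((χ g)⁻¹ : ℂˣ) : ℂ) * Complex.exp (∑ h, ((χ h : ℂˣ) : ℂ) * c h)) := by
    intro χ
    rw [Complex.exp_eq_exp_ℂ]
    have h0 : HasSum (fun n : ℕ => (∑ h, ((χ h : ℂˣ) : ℂ) * c h) ^ n / (n.factorial : ℂ))
        (NormedSpace.exp (∑ h, ((χ h : ℂˣ) : ℂ) * c h)) :=
      NormedSpace.expSeries_div_hasSum_exp (∑ h, ((χ h : ℂˣ) : ℂ) * c h)
    exact HasSum.mul_left _ h0
  have h2 := (hasSum_sum (s := Finset.univ) fun χ (_ : χ ∈ Finset.univ) => h1 χ).mul_left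
    ((Nat.card G : ℂ)⁻¹)
  refine (h2.congr_fun fun n => ?_).tsum_eq
  rw [fourier hab, mul_div_assoc, Finset.sum_div]
  congr 1
  refine Finset.sum_congr rfl fun χ _ => ?_
  rw [map_pow, map_sum, mul_div_assoc]
  congr 3
  refine Finset.sum_congr rfl fun h _ => ?_
  rw [ev_single, mul_comm]

end

variable {K : Type} [Field K] [NumberField K] {G : Type} [Group G] [Fintype G]
  [Fintype (G →* ℂˣ)]

/-- **the derivatives of the partial zeta functions from the primes** -/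
theorem zeta_law (hab : ∀ a b : G, a * b = b * a) (S : Finset (HeightOneSpectrum (𝓞 K)))
    (Fr : HeightOneSpectrum (𝓞 K) → G) {L : (G →* ℂˣ) → ℂ → ℂ} {σ₁ : ℝ}
    (hmer : ∀ χ, ∀ x : ℝ, 0 ≤ x → MeromorphicAt (L χ) (x : ℂ))
    (hL : ∀ χ, ∀ s : ℂ, σ₁ < s.re → L χ s =
      ∏' v, (tw (nB S v) (((χ (Fr v) : ℂˣ) : ℂ) • (1 : Module.End ℂ ℂ)) ((nv v : ℂ) ^ (-s)))⁻¹)
    (han : ∀ χ, AnalyticAt ℂ (L χ) 0) (hvan : ∀ χ, L χ 0 = 0)
    {γ : ℝ} (hγ : Real.pi / 2 < γ) {A : ℝ} (hA : 1 < A) (g : G) :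
    (fun T : ℝ => T * Complex.exp (-Lam γ) * gexp (fun h =>
        -∑ᶠ x ∈ cut nv A T, (iw Fr h x : ℂ) * lterm nv (nB S) 0 γ T x) g -
      deriv (fun s => (Nat.card G : ℂ)⁻¹ * ∑ χ : G →* ℂˣ, (((χ g)⁻¹ : ℂˣ) : ℂ) * L χ s) 0)
      =O[atTop] (fun T : ℝ => 1 / T) := by
  have E := nldata S
  have key : ∀ χ : G →* ℂˣ, (fun T : ℝ => T * Complex.exp (-Lam γ) *
      Complex.exp (∑ h, ((χ h : ℂˣ) : ℂ) *
        -∑ᶠ x ∈ cut nv A T, (iw Fr h x : ℂ) * lterm nv (nB S) 0 γ T x) - deriv (L χ) 0)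
      =O[atTop] (fun T : ℝ => 1 / T) := by
    intro χ
    obtain ⟨m, r, hm, hr, hlaw⟩ := chi_law E nv_finite Fr χ (F := L χ) (s₀ := 0)
      (σ₁ := max σ₁ (1 + 0)) (hmer χ) fun s hs => by
        rw [hL χ s (lt_of_le_of_lt (le_max_left _ _) hs),
          chi_prod E Fr χ (lt_of_le_of_lt (le_max_right _ _) hs)]
    rw [Complex.ofReal_zero] at hm hr
    obtain ⟨h1, h2⟩ := deriv_trailing (han χ) (hvan χ) hm
    have h3 := exp_law h1 (hlaw γ hγ A (by linarith) (by linarith))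
    rw [h2, ← hr]
    refine h3.congr_left fun T => ?_
    congr 3
    rw [← Finset.sum_neg_distrib]
    refine Finset.sum_congr rfl fun h _ => ?_
    ring
  have hd : deriv (fun s => (Nat.card G : ℂ)⁻¹ * ∑ χ : G →* ℂˣ, (((χ g)⁻¹ : ℂˣ) : ℂ) * L χ s) 0 =
      (Nat.card G : ℂ)⁻¹ * ∑ χ : G →* ℂˣ, (((χ g)⁻¹ : ℂˣ) : ℂ) * deriv (L χ) 0 := by
    have h1 : HasDerivAt (fun s => (Nat.card G : ℂ)⁻¹ * ∑ χ : G →* ℂˣ,
        (((χ g)⁻¹ : ℂˣ) : ℂ) * L χ s)
        ((Nat.card G : ℂ)⁻¹ * ∑ χ : G →* ℂˣ, (((χ g)⁻¹ : ℂˣ) : ℂ) * deriv (L χ) 0) 0 := by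
      refine HasDerivAt.const_mul _ ?_
      refine HasDerivAt.fun_sum fun χ _ => ?_
      exact ((han χ).differentiableAt.hasDerivAt).const_mul _
    exact h1.deriv
  rw [hd]
  have h5 := (Asymptotics.IsBigO.sum (s := Finset.univ) fun χ (_ : χ ∈ Finset.univ) =>
    (key χ).const_mul_left ((((χ g)⁻¹ : ℂˣ) : ℂ))).const_mul_left ((Nat.card G : ℂ)⁻¹)
  refine h5.congr_left fun T => ?_
  rw [gexp_eq hab, Finset.sum_apply]
  simp only [mul_sub, Finset.sum_sub_distrib]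
  rw [Finset.mul_sum, Finset.mul_sum, Finset.mul_sum]
  congr 1
  rw [Finset.mul_sum]
  refine Finset.sum_congr rfl fun χ _ => ?_
  ring

end Pool.Agent.TH652.CX
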